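import Pool.Agent.Y569.SP.Stm
import Pool.Agent.TH408.SP.AS3

/-!
# Sum-product with exponent 680/507: assembly
-/

set_option autoImplicit false
set_option linter.unusedSectionVars false

open Finset
open scoped Classical Pointwise

namespace Pool.Agent.Y569.SP.AS5

open Pool.Agent.W904.AK Pool.Agent.W798.SP Pool.Agent.TH408.SP Pool.Agent.TH408.SP.AS3

theorem tAS5 (hCL : S_CL5) (hX : S_X5) (hEX : S_EX5) (hFI : S_FI4) : S_AS5 := by
  intro A S T M hAne hA hT hM hMS hS hK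
  obtain ⟨Ω, _, p, l, u, c, hB, hH, hhA, hh2, hc3, hc23, hT3, hT3', hTt, hHW, hx1, hx2, hX1, hX2,
    hcls, hl⟩ := hCL A S T M hA hT hM hMS hS hK
  have hp := hB.law
  -- the ratio
  have hr := hX A S T M p l u c _ hT hM hMS hS hB hH hHW hx1 hx2 hX1 hX2 hcls hl
  obtain ⟨n, hn⟩ : ∃ n : ℕ, n = 2 * T := ⟨_, rfl⟩
  obtain ⟨N, hN⟩ : ∃ N : ℕ, N = 2 * T * M := ⟨_, rfl⟩
  rw [← hN, ← hn] at hT3 hT3' hTt
  rw [← hN, ← hn]
  rw [← hn] at hB hr
  have hnN : n ≤ N := by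
    rw [hn, hN]
    exact Nat.le_mul_of_pos_right _ (by omega)
  -- equal entropies of the permuted structures
  have hperm : CH p (Lm l) (zz (![u 1, u 0, v2 l u] : Fin 3 → Ω → ℝ)) =
      CH p (Lm l) (zz (![u 0, u 1, v2 l u] : Fin 3 → Ω → ℝ)) := by
    refine CH_eq hp (Det.mk' (fun t => ![t.2 1, t.2 0, t.2 2]) fun ω _ => ?_)
      (Det.mk' (fun t => ![t.2 1, t.2 0, t.2 2]) fun ω _ => ?_)
    all_goals
      funext i
      fin_cases i <;> rfl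
  have hratio1 : CH p (fun ω => (l 0 ω, l 1 ω)) (fun ω => u 1 ω / u 0 ω) -
      Real.log M ≤ CH p (Lm l) (fun ω => u 1 ω / u 0 ω) := by
    have e1 : H p (Lm l) = H p (fun ω => ((l 0 ω, l 1 ω), l 3 ω)) :=
      H_congr hp (Det.mk' (fun t => ((t.1, t.2.1), t.2.2)) fun ω _ => rfl)
        (Det.mk' (fun t => (t.1.1, (t.1.2, t.2))) fun ω _ => rfl)
    have e2 : H p (fun ω => ((l 0 ω, l 1 ω), u 1 ω / u 0 ω)) ≤
        H p (fun ω => (Lm l ω, u 1 ω / u 0 ω)) :=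
      H_mono hp (Det.mk' (fun t => ((t.1.1, t.1.2.1), t.2)) fun ω _ => rfl)
    unfold CH at hc3 ⊢
    rw [e1]
    linarith
  have hratio2 : CH p (fun ω => (l 0 ω, l 1 ω)) (fun ω => u 1 ω / u 0 ω) -
      2 * Real.log M ≤ CH p (zz l) (fun ω => u 1 ω / u 0 ω) := by
    have e1 : H p (zz l) = H p (fun ω => ((l 0 ω, l 1 ω), (l 2 ω, l 3 ω))) := by
      refine H_congr hp (Det.mk' (fun t => ((t 0, t 1), (t 2, t 3))) fun ω _ => rfl)
        (Det.mk' (fun t => ![t.1.1, t.1.2, t.2.1, t.2.2]) fun ω _ => ?_)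
      funext i
      fin_cases i <;> rfl
    have e2 : H p (fun ω => ((l 0 ω, l 1 ω), u 1 ω / u 0 ω)) ≤
        H p (fun ω => (zz l ω, u 1 ω / u 0 ω)) :=
      H_mono hp (Det.mk' (fun t => ((t.1 0, t.1 1), t.2)) fun ω _ => rfl)
    unfold CH at hc23 ⊢
    rw [e1]
    linarith
  -- the extensions
  have hE1 := hEX A p l u n N 1 (Lm l) ![u 0, u 1, v2 l u] (fun t => t.1) (Lm l)
    ![u 1, u 0, v2 l u] (fun t => t.2.1) hAne hA hB hnN hT3
    (fun ω => ⟨rfl, rfl⟩) hT3' (fun ω => ⟨rfl, rfl⟩)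
  have hE2 := hEX A p l u n N 2 (Lm l) ![u 0, u 1, v2 l u] (fun t => t.1) (Lt l)
    ![u 2, u3 u, vt l u] (fun t => t.1) hAne hA hB hnN hT3
    (fun ω => ⟨rfl, rfl⟩) hTt (fun ω => ⟨rfl, rfl⟩)
  have hF := hFI A p l u n _ _ _ _ hA hB hE1 hE2
  rw [hperm] at hF
  have hH0 : Real.log ((S.card : ℝ) * T / 32) ≤ H p (fun ω => (l 0 ω, u 0 ω)) := hH 0
  have hH1 := hH 1
  have hH2 := hH 2
  have hCn : Cst n ≤ Cst N := AS3.Cst_mono hnN
  generalize CH p (Lm l) (fun ω => u 1 ω / u 0 ω) = r1 at *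
  generalize CH p (zz l) (fun ω => u 1 ω / u 0 ω) = r2 at *
  linarith

end Pool.Agent.Y569.SP.AS5
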