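import Pool.Agent.Y569.SP.L5
import Pool.Agent.TH408.SP.C4

/-!
# Sum-product with exponent 680/507: the basic law

Adapted from the basic law for the exponent 122/91, with the facts for the merged relation.
-/

set_option autoImplicit false
set_option linter.unusedSectionVars false

open Finset
open scoped Classical Pointwise

namespace Pool.Agent.Y569.SP.C5

open Pool.Agent.W904.AK Pool.Agent.W798.SP Pool.Agent.TH408.SP Pool.Agent.W883.SP
  Pool.Agent.W290.SPX Pool.Agent.TH408.SP.C3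

theorem tCL5 (h : S_C04) : S_CL5 := by
  intro A S T M hA hT hM hMS hS hAA
  obtain ⟨W, c, hW, hcard, hcls, hinj, hinj2⟩ := h A S T M hA hT hM hMS hS hAA
  have hSpos : 0 < S.card := by omega
  have hWpos : 0 < W.card := by
    have h1 : 0 < M * S.card * T ^ 2 := by positivity
    omega
  have hSr : (0 : ℝ) < S.card := by exact_mod_cast hSpos
  have hTr : (0 : ℝ) < T := by exact_mod_cast (show 0 < T by omega)
  have hMr : (0 : ℝ) < M := by exact_mod_cast (show 0 < M by omega)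
  have hWr : (0 : ℝ) < W.card := by exact_mod_cast hWpos
  have hcr : (M : ℝ) * S.card * T ^ 2 ≤ 16 * W.card := by exact_mod_cast hcard
  have : Nonempty {w // w ∈ W} := by
    obtain ⟨w, hw⟩ := Finset.card_pos.1 hWpos
    exact ⟨⟨w, hw⟩⟩
  have hlaw := unif_law {w // w ∈ W}
  have hp : ∀ x : {w // w ∈ W}, unif {w // w ∈ W} x = 1 / (W.card : ℝ) := by
    intro x
    unfold unif
    rw [Fintype.card_coe]
  have hclsc : ∀ a, (S.filter (fun b => c b = c a)).card ≤ M := fun a => hcls (c a)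
  -- the number of configurations with a given pair `(l i, u i)`
  have hT2 : ∀ a, ((S.filter (fun b => c b = c a)).biUnion
      (fun b => ({b} : Finset ℝ) ×ˢ fib A b)).card ≤ M * (2 * T) := by
    intro a
    refine Finset.card_biUnion_le.trans ?_
    calc ∑ b ∈ S.filter (fun b => c b = c a), (({b} : Finset ℝ) ×ˢ fib A b).card
        ≤ ∑ b ∈ S.filter (fun b => c b = c a), 2 * T := by
          apply Finset.sum_le_sum
          intro b hb'
          rw [Finset.card_product, Finset.card_singleton, one_mul]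
          exact (hS b (Finset.mem_filter.1 hb').1).2.2.le
      _ = (S.filter (fun b => c b = c a)).card * (2 * T) := by
          rw [Finset.sum_const, smul_eq_mul]
      _ ≤ M * (2 * T) := Nat.mul_le_mul_right _ (hclsc a)
  have hfib : ∀ (i : Fin 3) (a x : ℝ),
      (W.filter (fun w => (w.1 i.castSucc, w.2 i) = (a, x))).card ≤ M * (2 * T) := by
    have f0 : ∀ (a x : ℝ), (W.filter (fun w => (w.1 0, w.2 0) = (a, x))).card ≤ M * (2 * T) := by
      intro a x
      refine le_trans ?_ (hT2 a)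
      apply Finset.card_le_card_of_injOn (fun w => (w.1 1, w.2 1))
      · intro w hw
        obtain ⟨hw1, hw2⟩ := Finset.mem_filter.1 (Finset.mem_coe.1 hw)
        obtain ⟨k1, k2, -, -, -, -⟩ := hW w hw1
        simp only [Prod.mk.injEq] at hw2
        obtain ⟨rfl, rfl⟩ := hw2
        apply Finset.mem_coe.2
        refine Finset.mem_biUnion.2 ⟨w.1 1, Finset.mem_filter.2 ⟨(k1 1).1, (k1 1).2⟩, ?_⟩
        exact Finset.mem_product.2 ⟨Finset.mem_singleton_self _, k2 1⟩
      · intro w hw w' hw' h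
        obtain ⟨hw1, hw2⟩ := Finset.mem_filter.1 (Finset.mem_coe.1 hw)
        obtain ⟨hw1', hw2'⟩ := Finset.mem_filter.1 (Finset.mem_coe.1 hw')
        simp only [Prod.mk.injEq] at h hw2 hw2'
        exact hinj w hw1 w' hw1' (hw2.1.trans hw2'.1.symm) h.1 (hw2.2.trans hw2'.2.symm) h.2
    have f1 : ∀ (a x : ℝ), (W.filter (fun w => (w.1 1, w.2 1) = (a, x))).card ≤ M * (2 * T) := by
      intro a x
      refine le_trans ?_ (hT2 a)
      apply Finset.card_le_card_of_injOn (fun w => (w.1 0, w.2 0))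
      · intro w hw
        obtain ⟨hw1, hw2⟩ := Finset.mem_filter.1 (Finset.mem_coe.1 hw)
        obtain ⟨k1, k2, -, -, -, -⟩ := hW w hw1
        simp only [Prod.mk.injEq] at hw2
        obtain ⟨rfl, rfl⟩ := hw2
        apply Finset.mem_coe.2
        refine Finset.mem_biUnion.2 ⟨w.1 0, Finset.mem_filter.2 ⟨(k1 0).1, (k1 1).2.symm⟩, ?_⟩
        exact Finset.mem_product.2 ⟨Finset.mem_singleton_self _, k2 0⟩
      · intro w hw w' hw' h
        obtain ⟨hw1, hw2⟩ := Finset.mem_filter.1 (Finset.mem_coe.1 hw)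
        obtain ⟨hw1', hw2'⟩ := Finset.mem_filter.1 (Finset.mem_coe.1 hw')
        simp only [Prod.mk.injEq] at h hw2 hw2'
        exact hinj w hw1 w' hw1' h.1 (hw2.1.trans hw2'.1.symm) h.2 (hw2.2.trans hw2'.2.symm)
    have f2 : ∀ (a x : ℝ), (W.filter (fun w => (w.1 2, w.2 2) = (a, x))).card ≤ M * (2 * T) := by
      intro a x
      refine le_trans ?_ (hT2 a)
      apply Finset.card_le_card_of_injOn (fun w => (w.1 3, w.2 0 + w.2 1 - w.2 2))
      · intro w hw
        obtain ⟨hw1, hw2⟩ := Finset.mem_filter.1 (Finset.mem_coe.1 hw)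
        obtain ⟨k1, -, k3, -, -, -⟩ := hW w hw1
        simp only [Prod.mk.injEq] at hw2
        obtain ⟨rfl, rfl⟩ := hw2
        apply Finset.mem_coe.2
        refine Finset.mem_biUnion.2 ⟨w.1 3,
          Finset.mem_filter.2 ⟨(k1 3).1, (k1 3).2.trans (k1 2).2.symm⟩, ?_⟩
        exact Finset.mem_product.2 ⟨Finset.mem_singleton_self _, k3⟩
      · intro w hw w' hw' h
        obtain ⟨hw1, hw2⟩ := Finset.mem_filter.1 (Finset.mem_coe.1 hw)
        obtain ⟨hw1', hw2'⟩ := Finset.mem_filter.1 (Finset.mem_coe.1 hw')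
        simp only [Prod.mk.injEq] at h hw2 hw2'
        exact hinj2 w hw1 w' hw1' (hw2.1.trans hw2'.1.symm) h.1 (hw2.2.trans hw2'.2.symm) h.2
    intro i
    fin_cases i
    · exact f0
    · exact f1
    · exact f2
  have hHl : ∀ i : Fin 3, Real.log ((S.card : ℝ) * T / 32) ≤
      H (unif {w // w ∈ W}) (fun ω : {w // w ∈ W} => (ω.1.1 i.castSucc, ω.1.2 i)) := by
    intro i
    have h1 : Real.log ((S.card : ℝ) * T / 32) = -Real.log (32 / (S.card * T)) := by
      rw [← Real.log_inv, inv_div]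
    rw [h1]
    apply H_ge hlaw
    intro x _
    have e1 : im (unif {w // w ∈ W}) (fun ω : {w // w ∈ W} => (ω.1.1 i.castSucc, ω.1.2 i))
        (x.1.1 i.castSucc, x.1.2 i) =
        ((W.filter (fun w => (w.1 i.castSucc, w.2 i) =
          (x.1.1 i.castSucc, x.1.2 i))).card : ℝ) * (1 / W.card) := by
      rw [← sum_sub W (fun w => (w.1 i.castSucc, w.2 i) = (x.1.1 i.castSucc, x.1.2 i))]
      unfold im
      refine Finset.sum_congr rfl fun y _ => ?_
      rw [hp y]
      by_cases hc : (y.1.1 i.castSucc, y.1.2 i) = (x.1.1 i.castSucc, x.1.2 i)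
      · rw [if_pos hc]
        exact (if_pos hc).symm
      · rw [if_neg hc]
        exact (if_neg hc).symm
    rw [e1]
    have h2 : ((W.filter (fun w => (w.1 i.castSucc, w.2 i) =
        (x.1.1 i.castSucc, x.1.2 i))).card : ℝ) ≤ M * (2 * T) := by
      exact_mod_cast hfib i (x.1.1 i.castSucc) (x.1.2 i)
    rw [mul_one_div, div_le_div_iff₀ hWr (by positivity)]
    calc ((W.filter (fun w => (w.1 i.castSucc, w.2 i) =
        (x.1.1 i.castSucc, x.1.2 i))).card : ℝ) * (S.card * T)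
        ≤ (M * (2 * T)) * (S.card * T) := mul_le_mul_of_nonneg_right h2 (by positivity)
      _ = 2 * (M * S.card * T ^ 2) := by ring
      _ ≤ 32 * W.card := by linarith
  -- entropy of an injective function
  have hent : ∀ {α : Type} (f : {w // w ∈ W} → α), Function.Injective f →
      Real.log ((M : ℝ) * S.card * T ^ 2 / 16) ≤ H (unif {w // w ∈ W}) f := by
    intro α f hf
    have h3 : -Real.log (1 / (W.card : ℝ)) ≤ H (unif {w // w ∈ W}) f := by
      apply H_ge hlaw
      intro x _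
      unfold im
      rw [Finset.sum_eq_single x]
      · rw [if_pos rfl, hp x]
      · intro y _ hy
        rw [if_neg]
        intro he
        exact hy (hf he)
      · intro hx
        exact absurd (Finset.mem_univ x) hx
    rw [one_div, Real.log_inv, neg_neg] at h3
    refine le_trans ?_ h3
    apply Real.log_le_log (by positivity)
    rw [div_le_iff₀ (by norm_num)]
    linarith
  -- injectivity
  have hdet : ∀ x y : {w // w ∈ W}, x.1.1 0 = y.1.1 0 → x.1.1 1 = y.1.1 1 →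
      x.1.2 0 = y.1.2 0 → x.1.2 1 = y.1.2 1 → x = y := fun x y k0 k1 k2 k3 =>
    Subtype.ext (hinj x.1 x.2 y.1 y.2 k0 k1 k2 k3)
  -- the entropy of the slopes
  have hup : ∀ {α : Type} (f : {w // w ∈ W} → α) (F : Finset α) (k : ℕ), (∀ x, f x ∈ F) →
      F.card ≤ S.card * M ^ k →
      H (unif {w // w ∈ W}) f ≤ Real.log (S.card * (M : ℝ) ^ k) := by
    intro α f F k hF hk
    refine (H_le hlaw f F fun x _ => hF x).trans ?_
    apply Real.log_le_log
    · obtain ⟨x⟩ := (inferInstance : Nonempty {w // w ∈ W})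
      exact_mod_cast Finset.card_pos.2 ⟨f x, hF x⟩
    · exact_mod_cast hk
  have hB1 : (S.biUnion (fun a => ({a} : Finset ℝ) ×ˢ (S.filter (fun b => c b = c a)))).card ≤
      S.card * M ^ 1 := by
    refine Finset.card_biUnion_le.trans ?_
    rw [← smul_eq_mul, ← Finset.sum_const]
    apply Finset.sum_le_sum
    intro a _
    rw [Finset.card_product, Finset.card_singleton, one_mul, pow_one]
    exact hclsc a
  have hB2 : (S.biUnion (fun a => ({a} : Finset ℝ) ×ˢ ((S.filter (fun b => c b = c a)) ×ˢ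
      (S.filter (fun b => c b = c a))))).card ≤ S.card * M ^ 2 := by
    refine Finset.card_biUnion_le.trans ?_
    rw [← smul_eq_mul, ← Finset.sum_const]
    apply Finset.sum_le_sum
    intro a _
    rw [Finset.card_product, Finset.card_product, Finset.card_singleton, one_mul, sq]
    exact Nat.mul_le_mul (hclsc a) (hclsc a)
  have hdet2 : ∀ x y : {w // w ∈ W}, x.1.1 2 = y.1.1 2 → x.1.1 3 = y.1.1 3 →
      x.1.2 2 = y.1.2 2 → x.1.2 0 + x.1.2 1 - x.1.2 2 = y.1.2 0 + y.1.2 1 - y.1.2 2 → x = y :=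
    fun x y k0 k1 k2 k3 => Subtype.ext (hinj2 x.1 x.2 y.1 y.2 k0 k1 k2 k3)
  have hlcc : ∀ ω : {w // w ∈ W}, lc (fun (i : Fin 4) (ω : {w // w ∈ W}) => ω.1.1 i) ω ∈ S ∧
      c (lc (fun (i : Fin 4) (ω : {w // w ∈ W}) => ω.1.1 i) ω) = c (ω.1.1 2) := by
    intro ω
    have k1 := (hW ω.1 ω.2).1
    unfold lc
    split_ifs
    · exact ⟨(k1 0).1, (k1 2).2.symm⟩
    · exact ⟨(k1 1).1, (k1 1).2.trans (k1 2).2.symm⟩
  have htri : ∀ g : ℝ × (ℝ × ℝ), ((S.filter (fun b => c b = c g.1)).biUnion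
      (fun b => (fib A b).image (fun x => (b - g.2.2) * x))).card ≤ 2 * T * M := by
    intro g
    refine Finset.card_biUnion_le.trans ?_
    calc ∑ b ∈ S.filter (fun b => c b = c g.1),
          ((fib A b).image (fun x => (b - g.2.2) * x)).card
        ≤ ∑ b ∈ S.filter (fun b => c b = c g.1), 2 * T := by
          apply Finset.sum_le_sum
          intro b hb
          exact Finset.card_image_le.trans (hS b (Finset.mem_filter.1 hb).1).2.2.le
      _ = (S.filter (fun b => c b = c g.1)).card * (2 * T) := by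
          rw [Finset.sum_const, smul_eq_mul]
      _ ≤ M * (2 * T) := Nat.mul_le_mul_right _ (hclsc g.1)
      _ = 2 * T * M := by ring
  -- facts for the merged relation
  have hidH : Real.log ((M : ℝ) * S.card * T ^ 2 / 16) ≤
      H (unif {w // w ∈ W}) (id : {w // w ∈ W} → {w // w ∈ W}) := hent id Function.injective_id
  have hlS : ∀ ω : {w // w ∈ W}, ∀ i, ω.1.1 i ∈ S ∧ c (ω.1.1 i) = c (ω.1.1 0) := fun ω i =>
    (hW ω.1 ω.2).1 i
  have huS : ∀ ω : {w // w ∈ W}, ∀ i : Fin 3, 0 < ω.1.2 i := fun ω i =>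
    hA _ (Finset.mem_filter.1 ((hW ω.1 ω.2).2.1 i)).1
  have hu3S : ∀ ω : {w // w ∈ W}, 0 < ω.1.2 0 + ω.1.2 1 - ω.1.2 2 := fun ω =>
    hA _ (Finset.mem_filter.1 (hW ω.1 ω.2).2.2.1).1
  refine ⟨{w // w ∈ W}, inferInstance, unif {w // w ∈ W}, fun i ω => ω.1.1 i,
    fun i ω => ω.1.2 i, c, ?_, hHl, ?_, ?_, ?_, ?_, ?_, ?_, ?_, ?_, ?_, ?_, ?_, ?_, hclsc,
    fun ω _ i => hlS ω i⟩
  · refine ⟨hlaw, ?_, ?_, ?_, ?_, ?_⟩
    · intro ω _ i
      exact (hS _ ((hW ω.1 ω.2).1 i).1).1
    · intro ω _ i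
      exact (hW ω.1 ω.2).2.1 i
    · intro ω _ i
      exact (hW ω.1 ω.2).2.2.2.2.1 i
    · intro ω _
      exact (hW ω.1 ω.2).2.2.2.2.2
    · intro ω _ i
      exact (hS _ ((hW ω.1 ω.2).1 i.castSucc).1).2.2.le
  · have h1 := hup (Lm (fun (i : Fin 4) (ω : {w // w ∈ W}) => ω.1.1 i)) _ 2 (fun x => by
      refine Finset.mem_biUnion.2 ⟨x.1.1 0, ((hW x.1 x.2).1 0).1, Finset.mem_product.2
        ⟨Finset.mem_singleton_self _, Finset.mem_product.2
          ⟨Finset.mem_filter.2 ((hW x.1 x.2).1 1), Finset.mem_filter.2 ((hW x.1 x.2).1 3)⟩⟩⟩) hB2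
    have h2 := hent (fun ω => (Lm (fun (i : Fin 4) (ω : {w // w ∈ W}) => ω.1.1 i) ω,
      zz (![fun ω : {w // w ∈ W} => ω.1.2 0, fun ω => ω.1.2 1,
        v2 (fun i ω => ω.1.1 i) (fun i ω => ω.1.2 i)] : Fin 3 → {w // w ∈ W} → ℝ) ω)) (by
      intro x y hxy
      have e1 := congrArg Prod.fst hxy
      have e2 := congrArg Prod.snd hxy
      have e3 := congrFun e2 0
      have e4 := congrFun e2 1
      exact hdet x y (congrArg Prod.fst e1) (congrArg (fun t => t.2.1) e1) e3 e4)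
    have h5 : Real.log ((T : ℝ) ^ 2 / (16 * (M : ℝ))) =
        Real.log ((M : ℝ) * S.card * T ^ 2 / 16) - Real.log (S.card * (M : ℝ) ^ 2) := by
      rw [← Real.log_div (by positivity) (by positivity)]
      congr 1
      field_simp
    rw [h5]
    unfold CH
    exact sub_le_sub h2 h1
  · have h1 := hup (Lt (fun (i : Fin 4) (ω : {w // w ∈ W}) => ω.1.1 i)) _ 2 (fun x => by
      refine Finset.mem_biUnion.2 ⟨x.1.1 2, ((hW x.1 x.2).1 2).1, Finset.mem_product.2
        ⟨Finset.mem_singleton_self _, Finset.mem_product.2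
          ⟨Finset.mem_filter.2 ⟨((hW x.1 x.2).1 3).1,
            ((hW x.1 x.2).1 3).2.trans ((hW x.1 x.2).1 2).2.symm⟩,
            Finset.mem_filter.2 (hlcc x)⟩⟩⟩) hB2
    have h2 := hent (fun ω => (Lt (fun (i : Fin 4) (ω : {w // w ∈ W}) => ω.1.1 i) ω,
      zz (![fun ω : {w // w ∈ W} => ω.1.2 2, u3 (fun i ω => ω.1.2 i),
        vt (fun i ω => ω.1.1 i) (fun i ω => ω.1.2 i)] : Fin 3 → {w // w ∈ W} → ℝ) ω)) (by
      intro x y hxy
      have e1 := congrArg Prod.fst hxy
      have e2 := congrArg Prod.snd hxy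
      have e3 := congrFun e2 0
      have e4 := congrFun e2 1
      exact hdet2 x y (congrArg Prod.fst e1) (congrArg (fun t => t.2.1) e1) e3 e4)
    have h5 : Real.log ((T : ℝ) ^ 2 / (16 * (M : ℝ))) =
        Real.log ((M : ℝ) * S.card * T ^ 2 / 16) - Real.log (S.card * (M : ℝ) ^ 2) := by
      rw [← Real.log_div (by positivity) (by positivity)]
      congr 1
      field_simp
    rw [h5]
    unfold CH
    exact sub_le_sub h2 h1
  · exact CH_le_card hlaw (fun ω : {w // w ∈ W} => (ω.1.1 0, ω.1.1 1))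
      (fun ω => ω.1.1 3)
      (fun g => S.filter (fun b => c b = c g.1)) (M : ℝ)
      (fun ω _ => Finset.mem_filter.2 ((hW ω.1 ω.2).1 3))
      (fun ω _ => by
        have := hclsc (ω.1.1 0)
        exact_mod_cast this)
  · have h1 := CH_le_card hlaw (fun ω : {w // w ∈ W} => (ω.1.1 0, ω.1.1 1))
      (fun ω => (ω.1.1 2, ω.1.1 3))
      (fun g => (S.filter (fun b => c b = c g.1)) ×ˢ (S.filter (fun b => c b = c g.1)))
      ((M : ℝ) ^ 2)
      (fun ω _ => Finset.mem_product.2 ⟨Finset.mem_filter.2 ((hW ω.1 ω.2).1 2),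
        Finset.mem_filter.2 ((hW ω.1 ω.2).1 3)⟩)
      (fun ω _ => by
        rw [Finset.card_product, Nat.cast_mul, sq]
        have := hclsc (ω.1.1 0)
        gcongr)
    rw [Real.log_pow] at h1
    exact_mod_cast h1
  · refine ⟨hlaw, ?_⟩
    refine ⟨![fun g => g.1 - g.2.2, fun g => g.2.1 - g.2.2, fun _ => -1],
      ![fun g => if (fib A g.1).card ≤ 2 * T then fib A g.1 else ∅,
        fun g => if (fib A g.2.1).card ≤ 2 * T then fib A g.2.1 else ∅,
        fun g => (S.filter (fun b => c b = c g.1)).biUnion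
          (fun b => (fib A b).image (fun x => (b - g.2.2) * x))], ?_, ?_⟩
    · intro g
      refine ⟨?_, ?_, ?_⟩
      · show (if (fib A g.1).card ≤ 2 * T then fib A g.1 else ∅).card ≤ 2 * T
        split_ifs with hc
        · exact hc
        · simp
      · show (if (fib A g.2.1).card ≤ 2 * T then fib A g.2.1 else ∅).card ≤ 2 * T
        split_ifs with hc
        · exact hc
        · simp
      · show ((S.filter (fun b => c b = c g.1)).biUnion
          (fun b => (fib A b).image (fun x => (b - g.2.2) * x))).card ≤ 2 * T * M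
        refine Finset.card_biUnion_le.trans ?_
        calc ∑ b ∈ S.filter (fun b => c b = c g.1),
              ((fib A b).image (fun x => (b - g.2.2) * x)).card
            ≤ ∑ b ∈ S.filter (fun b => c b = c g.1), 2 * T := by
              apply Finset.sum_le_sum
              intro b hb
              exact Finset.card_image_le.trans (hS b (Finset.mem_filter.1 hb).1).2.2.le
          _ = (S.filter (fun b => c b = c g.1)).card * (2 * T) := by
              rw [Finset.sum_const, smul_eq_mul]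
          _ ≤ M * (2 * T) := Nat.mul_le_mul_right _ (hclsc g.1)
          _ = 2 * T * M := by ring
    · intro ω _
      obtain ⟨k1, k2, -, -, k3, k4⟩ := hW ω.1 ω.2
      have hpos : ∀ i : Fin 3, 0 < ω.1.2 i := fun i => hA _ (Finset.mem_filter.1 (k2 i)).1
      refine ⟨?_, ?_⟩
      · intro i
        fin_cases i
        · refine ⟨sub_ne_zero.2 (k3 0), (hpos 0).ne', ?_⟩
          show ω.1.2 0 ∈ if (fib A (ω.1.1 0)).card ≤ 2 * T then fib A (ω.1.1 0) else ∅
          rw [if_pos (hS _ (k1 0).1).2.2.le]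
          exact k2 0
        · refine ⟨sub_ne_zero.2 (k3 1), (hpos 1).ne', ?_⟩
          show ω.1.2 1 ∈ if (fib A (ω.1.1 1)).card ≤ 2 * T then fib A (ω.1.1 1) else ∅
          rw [if_pos (hS _ (k1 1).1).2.2.le]
          exact k2 1
        · refine ⟨by show (-1 : ℝ) ≠ 0; norm_num, mul_ne_zero (sub_ne_zero.2 (k3 2)) (hpos 2).ne', ?_⟩
          show (ω.1.1 2 - ω.1.1 3) * ω.1.2 2 ∈ (S.filter (fun b => c b = c (ω.1.1 0))).biUnion
            (fun b => (fib A b).image (fun x => (b - ω.1.1 3) * x))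
          exact Finset.mem_biUnion.2 ⟨ω.1.1 2, Finset.mem_filter.2 (k1 2),
            Finset.mem_image.2 ⟨ω.1.2 2, k2 2, rfl⟩⟩
      · rw [Fin.sum_univ_three]
        show (ω.1.1 0 - ω.1.1 3) * ω.1.2 0 + (ω.1.1 1 - ω.1.1 3) * ω.1.2 1 +
          (-1) * ((ω.1.1 2 - ω.1.1 3) * ω.1.2 2) = 0
        linarith
  · refine ⟨hlaw, ?_⟩
    refine ⟨![fun g => g.2.1 - g.2.2, fun g => g.1 - g.2.2, fun _ => -1],
      ![fun g => if (fib A g.2.1).card ≤ 2 * T then fib A g.2.1 else ∅,
        fun g => if (fib A g.1).card ≤ 2 * T then fib A g.1 else ∅,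
        fun g => (S.filter (fun b => c b = c g.1)).biUnion
          (fun b => (fib A b).image (fun x => (b - g.2.2) * x))], ?_, ?_⟩
    · intro g
      refine ⟨?_, ?_, ?_⟩
      · show (if (fib A g.2.1).card ≤ 2 * T then fib A g.2.1 else ∅).card ≤ 2 * T
        split_ifs with hc
        · exact hc
        · simp
      · show (if (fib A g.1).card ≤ 2 * T then fib A g.1 else ∅).card ≤ 2 * T
        split_ifs with hc
        · exact hc
        · simp
      · exact htri g
    · intro ω _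
      obtain ⟨k1, k2, -, -, k3, k4⟩ := hW ω.1 ω.2
      have hpos : ∀ i : Fin 3, 0 < ω.1.2 i := fun i => hA _ (Finset.mem_filter.1 (k2 i)).1
      refine ⟨?_, ?_⟩
      · intro i
        fin_cases i
        · refine ⟨sub_ne_zero.2 (k3 1), (hpos 1).ne', ?_⟩
          show ω.1.2 1 ∈ if (fib A (ω.1.1 1)).card ≤ 2 * T then fib A (ω.1.1 1) else ∅
          rw [if_pos (hS _ (k1 1).1).2.2.le]
          exact k2 1
        · refine ⟨sub_ne_zero.2 (k3 0), (hpos 0).ne', ?_⟩
          show ω.1.2 0 ∈ if (fib A (ω.1.1 0)).card ≤ 2 * T then fib A (ω.1.1 0) else ∅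
          rw [if_pos (hS _ (k1 0).1).2.2.le]
          exact k2 0
        · refine ⟨by show (-1 : ℝ) ≠ 0; norm_num, mul_ne_zero (sub_ne_zero.2 (k3 2)) (hpos 2).ne', ?_⟩
          show (ω.1.1 2 - ω.1.1 3) * ω.1.2 2 ∈ (S.filter (fun b => c b = c (ω.1.1 0))).biUnion
            (fun b => (fib A b).image (fun x => (b - ω.1.1 3) * x))
          exact Finset.mem_biUnion.2 ⟨ω.1.1 2, Finset.mem_filter.2 (k1 2),
            Finset.mem_image.2 ⟨ω.1.2 2, k2 2, rfl⟩⟩
      · rw [Fin.sum_univ_three]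
        show (ω.1.1 1 - ω.1.1 3) * ω.1.2 1 + (ω.1.1 0 - ω.1.1 3) * ω.1.2 0 +
          (-1) * ((ω.1.1 2 - ω.1.1 3) * ω.1.2 2) = 0
        linarith
  · refine ⟨hlaw, ?_⟩
    refine ⟨![fun g => g.1 - g.2.2, fun g => g.2.1 - g.2.2, fun _ => -1],
      ![fun g => if (fib A g.1).card ≤ 2 * T then fib A g.1 else ∅,
        fun g => if (fib A g.2.1).card ≤ 2 * T then fib A g.2.1 else ∅,
        fun g => (S.filter (fun b => c b = c g.1)).biUnion
          (fun b => (fib A b).image (fun x => (b - g.2.2) * x))], ?_, ?_⟩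
    · intro g
      refine ⟨?_, ?_, ?_⟩
      · show (if (fib A g.1).card ≤ 2 * T then fib A g.1 else ∅).card ≤ 2 * T
        split_ifs with hc
        · exact hc
        · simp
      · show (if (fib A g.2.1).card ≤ 2 * T then fib A g.2.1 else ∅).card ≤ 2 * T
        split_ifs with hc
        · exact hc
        · simp
      · exact htri g
    · intro ω _
      obtain ⟨k1, k2, k2', k01, k3, k4⟩ := hW ω.1 ω.2
      have hpos : ∀ i : Fin 3, 0 < ω.1.2 i := fun i => hA _ (Finset.mem_filter.1 (k2 i)).1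
      have hpos3 : 0 < ω.1.2 0 + ω.1.2 1 - ω.1.2 2 := hA _ (Finset.mem_filter.1 k2').1
      have hlc : (ω.1.1 2 ≠ ω.1.1 0 ∧
          lc (fun (i : Fin 4) (ω : {w // w ∈ W}) => ω.1.1 i) ω = ω.1.1 0 ∧
          vt (fun (i : Fin 4) (ω : {w // w ∈ W}) => ω.1.1 i) (fun i ω => ω.1.2 i) ω =
            (ω.1.1 1 - ω.1.1 0) * ω.1.2 1) ∨ (ω.1.1 2 = ω.1.1 0 ∧
          lc (fun (i : Fin 4) (ω : {w // w ∈ W}) => ω.1.1 i) ω = ω.1.1 1 ∧
          vt (fun (i : Fin 4) (ω : {w // w ∈ W}) => ω.1.1 i) (fun i ω => ω.1.2 i) ω =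
            (ω.1.1 0 - ω.1.1 1) * ω.1.2 0) := by
        by_cases hc : ω.1.1 2 ≠ ω.1.1 0
        · exact Or.inl ⟨hc, if_pos hc, if_pos hc⟩
        · exact Or.inr ⟨not_not.1 hc, if_neg hc, if_neg hc⟩
      refine ⟨?_, ?_⟩
      · intro i
        fin_cases i
        · refine ⟨?_, (hpos 2).ne', ?_⟩
          · show ω.1.1 2 - lc (fun (i : Fin 4) (ω : {w // w ∈ W}) => ω.1.1 i) ω ≠ 0
            rcases hlc with ⟨h1, h2, -⟩ | ⟨h1, h2, -⟩
            · rw [h2]; exact sub_ne_zero.2 h1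
            · rw [h2, h1]; exact sub_ne_zero.2 k01
          · show ω.1.2 2 ∈ if (fib A (ω.1.1 2)).card ≤ 2 * T then fib A (ω.1.1 2) else ∅
            rw [if_pos (hS _ (k1 2).1).2.2.le]
            exact k2 2
        · refine ⟨?_, hpos3.ne', ?_⟩
          · show ω.1.1 3 - lc (fun (i : Fin 4) (ω : {w // w ∈ W}) => ω.1.1 i) ω ≠ 0
            rcases hlc with ⟨h1, h2, -⟩ | ⟨h1, h2, -⟩
            · rw [h2]; exact sub_ne_zero.2 (fun h => k3 0 h.symm)
            · rw [h2]; exact sub_ne_zero.2 (fun h => k3 1 h.symm)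
          · show ω.1.2 0 + ω.1.2 1 - ω.1.2 2 ∈
              if (fib A (ω.1.1 3)).card ≤ 2 * T then fib A (ω.1.1 3) else ∅
            rw [if_pos (hS _ (k1 3).1).2.2.le]
            exact k2'
        · refine ⟨by show (-1 : ℝ) ≠ 0; norm_num, ?_, ?_⟩
          · show vt (fun (i : Fin 4) (ω : {w // w ∈ W}) => ω.1.1 i) (fun i ω => ω.1.2 i) ω ≠ 0
            rcases hlc with ⟨-, -, h2⟩ | ⟨-, -, h2⟩
            · rw [h2]; exact mul_ne_zero (sub_ne_zero.2 k01.symm) (hpos 1).ne'
            · rw [h2]; exact mul_ne_zero (sub_ne_zero.2 k01) (hpos 0).ne'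
          · show vt (fun (i : Fin 4) (ω : {w // w ∈ W}) => ω.1.1 i) (fun i ω => ω.1.2 i) ω ∈
              (S.filter (fun b => c b = c (ω.1.1 2))).biUnion (fun b => (fib A b).image
                (fun x => (b - lc (fun (i : Fin 4) (ω : {w // w ∈ W}) => ω.1.1 i) ω) * x))
            rcases hlc with ⟨-, h1, h2⟩ | ⟨-, h1, h2⟩
            · rw [h2, h1]
              exact Finset.mem_biUnion.2 ⟨ω.1.1 1, Finset.mem_filter.2
                ⟨(k1 1).1, (k1 1).2.trans (k1 2).2.symm⟩,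
                Finset.mem_image.2 ⟨ω.1.2 1, k2 1, rfl⟩⟩
            · rw [h2, h1]
              exact Finset.mem_biUnion.2 ⟨ω.1.1 0, Finset.mem_filter.2
                ⟨(k1 0).1, (k1 2).2.symm⟩,
                Finset.mem_image.2 ⟨ω.1.2 0, k2 0, rfl⟩⟩
      · rw [Fin.sum_univ_three]
        show (ω.1.1 2 - lc (fun (i : Fin 4) (ω : {w // w ∈ W}) => ω.1.1 i) ω) * ω.1.2 2 +
          (ω.1.1 3 - lc (fun (i : Fin 4) (ω : {w // w ∈ W}) => ω.1.1 i) ω) *
            (ω.1.2 0 + ω.1.2 1 - ω.1.2 2) +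
          (-1) * vt (fun (i : Fin 4) (ω : {w // w ∈ W}) => ω.1.1 i) (fun i ω => ω.1.2 i) ω = 0
        rcases hlc with ⟨-, h1, h2⟩ | ⟨-, h1, h2⟩
        · rw [h1, h2]
          linear_combination -k4
        · rw [h1, h2]
          linear_combination -k4
  · refine hent (fun ω : {w // w ∈ W} => ((ω.1.1 0, ω.1.2 0), (ω.1.1 1, ω.1.2 1))) ?_
    intro x y hxy
    simp only [Prod.mk.injEq] at hxy
    exact hdet x y hxy.1.1 hxy.2.1 hxy.1.2 hxy.2.2
  · refine L5.ent hlaw hSpos hT hM hclsc (fun ω _ i => hlS ω i)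
      (fun ω _ => (hW ω.1 ω.2).2.2.2.2.1 0) ?_ ?_ hidH
    · intro x y _ _ hxy
      simp only [Prod.mk.injEq] at hxy
      exact hdet x y hxy.1.1 hxy.1.2 hxy.2.1 hxy.2.2
    · intro x y _ _ hxy
      have e1 := congrArg (fun t => t.1.1) hxy
      have e2 := congrArg (fun t => t.1.2) hxy
      have e3 := congrArg (fun t => t.2.1) hxy
      have e4 := congrArg (fun t => t.2.2) hxy
      exact hdet2 x y e1 e2 e3 e4
  · refine L5.ent (l := lsw (fun (i : Fin 4) (ω : {w // w ∈ W}) => ω.1.1 i))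
      (u := usw (fun (i : Fin 3) (ω : {w // w ∈ W}) => ω.1.2 i)) hlaw hSpos hT hM hclsc ?_
      (fun ω _ => (hW ω.1 ω.2).2.2.2.2.1 1) ?_ ?_ hidH
    · intro ω _ i
      have k0 := hlS ω
      fin_cases i
      · exact ⟨(k0 1).1, rfl⟩
      · exact ⟨(k0 0).1, (k0 1).2.symm⟩
      · exact ⟨(k0 2).1, (k0 2).2.trans (k0 1).2.symm⟩
      · exact ⟨(k0 3).1, (k0 3).2.trans (k0 1).2.symm⟩
    · intro x y _ _ hxy
      have e1 := congrArg (fun t => t.1.1) hxy
      have e2 := congrArg (fun t => t.1.2) hxy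
      have e3 := congrArg (fun t => t.2.1) hxy
      have e4 := congrArg (fun t => t.2.2) hxy
      exact hdet x y e2 e1 e4 e3
    · intro x y _ _ hxy
      have e1 := congrArg (fun t => t.1.1) hxy
      have e2 := congrArg (fun t => t.1.2) hxy
      have e3 := congrArg (fun t => t.2.1) hxy
      have e4 : x.1.2 1 + x.1.2 0 - x.1.2 2 = y.1.2 1 + y.1.2 0 - y.1.2 2 :=
        congrArg (fun t => t.2.2) hxy
      exact hdet2 x y e1 e2 e3 (by linarith)
  · refine L5.tri2 (A := A) hlaw (fun ω _ i => (hW ω.1 ω.2).2.1 i)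
      (fun ω _ => (hW ω.1 ω.2).2.2.1) (fun ω _ i => (huS ω i).ne') (fun ω _ => (hu3S ω).ne')
      (fun ω _ i => (hW ω.1 ω.2).2.2.2.2.1 i) (fun ω _ => (hW ω.1 ω.2).2.2.2.1)
      (fun ω _ => (hW ω.1 ω.2).2.2.2.2.2) (fun ω _ i => (hS _ (hlS ω i).1).2.2.le)
  · refine L5.tri2 (A := A) (l := lsw (fun (i : Fin 4) (ω : {w // w ∈ W}) => ω.1.1 i))
      (u := usw (fun (i : Fin 3) (ω : {w // w ∈ W}) => ω.1.2 i)) hlaw ?_ ?_ ?_ ?_ ?_ ?_ ?_ ?_
    · intro ω _ i
      fin_cases i
      · exact (hW ω.1 ω.2).2.1 1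
      · exact (hW ω.1 ω.2).2.1 0
      · exact (hW ω.1 ω.2).2.1 2
    · intro ω _
      have k0 := (hW ω.1 ω.2).2.2.1
      show ω.1.2 1 + ω.1.2 0 - ω.1.2 2 ∈ fib A (ω.1.1 3)
      rw [add_comm (ω.1.2 1)]
      exact k0
    · intro ω _ i
      fin_cases i
      · exact (huS ω 1).ne'
      · exact (huS ω 0).ne'
      · exact (huS ω 2).ne'
    · intro ω _
      show ω.1.2 1 + ω.1.2 0 - ω.1.2 2 ≠ 0
      rw [add_comm (ω.1.2 1)]
      exact (hu3S ω).ne'
    · intro ω _ i
      fin_cases i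
      · exact (hW ω.1 ω.2).2.2.2.2.1 1
      · exact (hW ω.1 ω.2).2.2.2.2.1 0
      · exact (hW ω.1 ω.2).2.2.2.2.1 2
    · intro ω _
      exact (hW ω.1 ω.2).2.2.2.1.symm
    · intro ω _
      have k0 := (hW ω.1 ω.2).2.2.2.2.2
      show (ω.1.1 1 - ω.1.1 3) * ω.1.2 1 + (ω.1.1 0 - ω.1.1 3) * ω.1.2 0 =
        (ω.1.1 2 - ω.1.1 3) * ω.1.2 2
      linarith
    · intro ω _ i
      fin_cases i
      · exact (hS _ (hlS ω 1).1).2.2.le
      · exact (hS _ (hlS ω 0).1).2.2.le
      · exact (hS _ (hlS ω 2).1).2.2.le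
      · exact (hS _ (hlS ω 3).1).2.2.le

end Pool.Agent.Y569.SP.C5
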