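import Pool.Agent.Y569.SP.J5

/-!
# Sum-product with exponent 680/507: the incidence inequalities for pairs of forms
-/

set_option autoImplicit false
set_option linter.unusedSectionVars false

open Finset
open scoped Classical

namespace Pool.Agent.Y569.SP.JJ

open Pool.Agent.W904.AK Pool.Agent.W798.SP Pool.Agent.TH408.SP

theorem tJW (h : S_JW0) : S_JW := by
  intro Ω₁ Γ₁ K₁ Ω₂ Γ₂ K₂ Ω γ _ _ _ p₁ Lam₁ a κ₁ p₂ Lam₂ b κ₂ n N p kA kB f g Q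
    htri₁ htri₂ hnN hp hf hg hQA hQB
  obtain ⟨hp₁, c, S, hS, hrel⟩ := htri₁
  obtain ⟨hp₂, d, S', hS', hrel'⟩ := htri₂
  set F₁ : Ω → K₁ × ℝ := fun ω => (kA ω, f ω) with hF₁
  set G₁ : Ω₁ → K₁ × ℝ := fun ω => (κ₁ (Lam₁ ω), a 0 ω) with hG₁
  set G₂ : Ω₂ → K₂ × ℝ := fun ω => (κ₂ (Lam₂ ω), b 0 ω) with hG₂
  set pA : Ω × Ω₁ → ℝ := glue p p₁ F₁ G₁ with hpA
  set F₂ : Ω × Ω₁ → K₂ × ℝ := fun w => (kB w.1, g w.1) with hF₂
  set pB : (Ω × Ω₁) × Ω₂ → ℝ := glue pA p₂ F₂ G₂ with hpB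
  have hA : IsLaw pA := glue_law hp hp₁ hf
  have hfg₂ : ∀ c, im pA F₂ c = im p₂ G₂ c := by
    intro c
    rw [← hg c]
    exact im_glue_fst hp hf (fun ω => (kB ω, g ω)) c
  have hB : IsLaw pB := glue_law hA hp₂ hfg₂
  -- facts on the support
  have supp : ∀ w, pB w ≠ 0 → kA w.1.1 = κ₁ (Lam₁ w.1.2) ∧ f w.1.1 = a 0 w.1.2 ∧
      kB w.1.1 = κ₂ (Lam₂ w.2) ∧ g w.1.1 = b 0 w.2 ∧ p₁ w.1.2 ≠ 0 ∧ p₂ w.2 ≠ 0 := by
    intro w hw
    obtain ⟨e1, e2, e3⟩ := glue_supp hw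
    obtain ⟨e4, e5, e6⟩ := glue_supp e2
    exact ⟨congrArg Prod.fst e4, congrArg Prod.snd e4, congrArg Prod.fst e1,
      congrArg Prod.snd e1, e6, e3⟩
  let Q' : (Ω × Ω₁) × Ω₂ → (γ × Γ₁) × Γ₂ := fun w => ((Q w.1.1, Lam₁ w.1.2), Lam₂ w.2)
  let a' : Fin 3 → (Ω × Ω₁) × Ω₂ → ℝ := fun k w => c k (Lam₁ w.1.2) * a k w.1.2
  let b' : Fin 3 → (Ω × Ω₁) × Ω₂ → ℝ := fun k w => d k (Lam₂ w.2) * b k w.2
  have hJ0 := h pB Q' a' b' n N (fun k q => (S k q.1.2).image (fun x => c k q.1.2 * x))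
    (fun k q => (S' k q.2).image (fun x => d k q.2 * x)) hB hnN
    (fun q => ⟨Finset.card_image_le.trans (hS _).1, Finset.card_image_le.trans (hS _).2.1,
      Finset.card_image_le.trans (hS _).2.2⟩)
    (fun q => ⟨Finset.card_image_le.trans (hS' _).1, Finset.card_image_le.trans (hS' _).2.1,
      Finset.card_image_le.trans (hS' _).2.2⟩) (by
      intro w hw
      obtain ⟨s1, s2, s3, s4, s5, s6⟩ := supp w hw
      obtain ⟨r1, r2⟩ := hrel _ s5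
      obtain ⟨r3, r4⟩ := hrel' _ s6
      exact ⟨fun k => ⟨mul_ne_zero (r1 _).1 (r1 _).2.1, mul_ne_zero (r3 _).1 (r3 _).2.1,
        Finset.mem_image.2 ⟨a k w.1.2, (r1 _).2.2, rfl⟩,
        Finset.mem_image.2 ⟨b k w.2, (r3 _).2.2, rfl⟩⟩, r2, r4⟩)
  -- marginals
  have mar : ∀ {β : Type} (F : Ω → β), H pB (fun w => F w.1.1) = H p F := by
    intro β F
    have e5 := H_glue_fst (q := p₂) (g := G₂) hA hfg₂ (fun w : Ω × Ω₁ => F w.1)
    have e6 := H_glue_fst (q := p₁) (g := G₁) hp hf F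
    exact e5.trans e6
  -- the ratio
  have hratio : CH pB Q' (fun w => b' 0 w / a' 0 w) ≤ CH p Q (fun ω => g ω / f ω) := by
    have e1 : CH pB Q' (fun w => b' 0 w / a' 0 w) ≤ CH pB Q' (fun w => g w.1.1 / f w.1.1) := by
      apply CH_mono hB
      refine Det.mk' (fun t => d 0 t.1.2 / c 0 t.1.1.2 * t.2) fun w hw => ?_
      obtain ⟨s1, s2, s3, s4, s5, s6⟩ := supp w hw
      change d 0 (Lam₂ w.2) * b 0 w.2 / (c 0 (Lam₁ w.1.2) * a 0 w.1.2)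
        = d 0 (Lam₂ w.2) / c 0 (Lam₁ w.1.2) * (g w.1.1 / f w.1.1)
      rw [s4, s2, mul_div_mul_comm]
    have e2 : CH pB Q' (fun w => g w.1.1 / f w.1.1) ≤
        CH pB (fun w => Q w.1.1) (fun w => g w.1.1 / f w.1.1) :=
      CH_anti hB (Det.mk' (fun t => t.1.1) fun w _ => rfl)
    have e3 : CH pB (fun w => Q w.1.1) (fun w => g w.1.1 / f w.1.1) =
        CH p Q (fun ω => g ω / f ω) := by
      unfold CH
      have e4 := mar Q
      have e5 := mar (fun ω => (Q ω, g ω / f ω))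
      rw [e4, e5]
    rw [← e3]
    exact e1.trans e2
  -- the entropy of the condition
  have hcond : H pB Q' ≤ H p Q + (H p₁ Lam₁ - H p₁ (fun ω => κ₁ (Lam₁ ω))) +
      (H p₂ Lam₂ - H p₂ (fun ω => κ₂ (Lam₂ ω))) := by
    have e1 := submod' hB (f := fun w => Q w.1.1) (g := fun w => Lam₁ w.1.2)
      (h := fun w => κ₁ (Lam₁ w.1.2)) (k := fun w => (Q w.1.1, Lam₁ w.1.2))
      (by
        intro x y hx hy hxy
        have e3 := hQA x.1.1 y.1.1 (glue_supp (glue_supp hx).2.1).2.1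
          (glue_supp (glue_supp hy).2.1).2.1 hxy
        show κ₁ (Lam₁ x.1.2) = κ₁ (Lam₁ y.1.2)
        rw [← (supp x hx).1, ← (supp y hy).1, e3])
      (Det.mk' (fun t => κ₁ t) fun w _ => rfl) (Det.refl _ _)
    have e2 := submod' hB (f := fun w => (Q w.1.1, Lam₁ w.1.2)) (g := fun w => Lam₂ w.2)
      (h := fun w => κ₂ (Lam₂ w.2)) (k := Q')
      (by
        intro x y hx hy hxy
        have hxy' : Q x.1.1 = Q y.1.1 := congrArg Prod.fst hxy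
        have e3 := hQB x.1.1 y.1.1 (glue_supp (glue_supp hx).2.1).2.1
          (glue_supp (glue_supp hy).2.1).2.1 hxy'
        show κ₂ (Lam₂ x.2) = κ₂ (Lam₂ y.2)
        rw [← (supp x hx).2.2.1, ← (supp y hy).2.2.1, e3])
      (Det.mk' (fun t => κ₂ t) fun w _ => rfl) (Det.refl _ _)
    have m1 : H pB (fun w => Lam₁ w.1.2) = H p₁ Lam₁ := by
      have e5 := H_glue_fst (q := p₂) (g := G₂) hA hfg₂ (fun w : Ω × Ω₁ => Lam₁ w.2)
      have e6 := H_glue_snd (p := p) (f := F₁) hp₁ hf Lam₁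
      exact e5.trans e6
    have m2 : H pB (fun w => κ₁ (Lam₁ w.1.2)) = H p₁ (fun ω => κ₁ (Lam₁ ω)) := by
      have e5 := H_glue_fst (q := p₂) (g := G₂) hA hfg₂ (fun w : Ω × Ω₁ => κ₁ (Lam₁ w.2))
      have e6 := H_glue_snd (p := p) (f := F₁) hp₁ hf (fun ω => κ₁ (Lam₁ ω))
      exact e5.trans e6
    have m3 : H pB (fun w => Lam₂ w.2) = H p₂ Lam₂ :=
      H_glue_snd (p := pA) (f := F₂) hp₂ hfg₂ Lam₂
    have m4 : H pB (fun w => κ₂ (Lam₂ w.2)) = H p₂ (fun ω => κ₂ (Lam₂ ω)) :=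
      H_glue_snd (p := pA) (f := F₂) hp₂ hfg₂ (fun ω => κ₂ (Lam₂ ω))
    have m5 := mar Q
    rw [m1, m2, m5] at e1
    rw [m3, m4] at e2
    linarith
  -- the joint entropy
  have hjoint : H pB (fun w => (Q' w, (zz a' w, zz b' w))) =
      H p (fun ω => (Q ω, (f ω, g ω))) + H p₁ (fun ω => (Lam₁ ω, zz a ω)) - H p₁ G₁ +
        H p₂ (fun ω => (Lam₂ ω, zz b ω)) - H p₂ G₂ := by
    let big : (Ω × Ω₁) × Ω₂ → ((γ × (ℝ × ℝ)) × (Γ₁ × (Fin 3 → ℝ))) × (Γ₂ × (Fin 3 → ℝ)) :=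
      fun w => (((Q w.1.1, (f w.1.1, g w.1.1)), (Lam₁ w.1.2, zz a w.1.2)), (Lam₂ w.2, zz b w.2))
    have e7 : H pB (fun w => (Q' w, (zz a' w, zz b' w))) = H pB big := by
      apply H_congr hB
      · refine Det.mk' (fun t => (((t.1.1.1, (t.2.1 0 / c 0 t.1.1.2, t.2.2 0 / d 0 t.1.2)),
          (t.1.1.2, fun k => t.2.1 k / c k t.1.1.2)),
          (t.1.2, fun k => t.2.2 k / d k t.1.2))) fun w hw => ?_
        obtain ⟨s1, s2, s3, s4, s5, s6⟩ := supp w hw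
        obtain ⟨r1, r2⟩ := hrel _ s5
        obtain ⟨r3, r4⟩ := hrel' _ s6
        have q1 : ∀ k, c k (Lam₁ w.1.2) * a k w.1.2 / c k (Lam₁ w.1.2) = a k w.1.2 := fun k =>
          mul_div_cancel_left₀ _ (r1 k).1
        have q2 : ∀ k, d k (Lam₂ w.2) * b k w.2 / d k (Lam₂ w.2) = b k w.2 := fun k =>
          mul_div_cancel_left₀ _ (r3 k).1
        change (((Q w.1.1, (f w.1.1, g w.1.1)), (Lam₁ w.1.2, zz a w.1.2)),
          (Lam₂ w.2, zz b w.2)) = (((Q w.1.1,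
          (c 0 (Lam₁ w.1.2) * a 0 w.1.2 / c 0 (Lam₁ w.1.2),
            d 0 (Lam₂ w.2) * b 0 w.2 / d 0 (Lam₂ w.2))),
          (Lam₁ w.1.2, fun k => c k (Lam₁ w.1.2) * a k w.1.2 / c k (Lam₁ w.1.2))),
          (Lam₂ w.2, fun k => d k (Lam₂ w.2) * b k w.2 / d k (Lam₂ w.2)))
        simp only [q1, q2]
        rw [s2, s4]
        rfl
      · exact Det.mk' (fun t => (((t.1.1.1, t.1.2.1), t.2.1),
          ((fun k => c k t.1.2.1 * t.1.2.2 k), (fun k => d k t.2.1 * t.2.2 k)))) fun w _ => rfl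
    have e8 : H pB big = H pA (fun w => ((Q w.1, (f w.1, g w.1)), (Lam₁ w.2, zz a w.2))) +
        H p₂ (fun ω => (Lam₂ ω, zz b ω)) - H pA F₂ := by
      refine H_glue hA hp₂ hfg₂ (u := fun w : Ω × Ω₁ => ((Q w.1, (f w.1, g w.1)),
        (Lam₁ w.2, zz a w.2))) (v := fun ω => (Lam₂ ω, zz b ω)) ?_ ?_
      · intro x y hx hy hxy
        have hxy1 : Q x.1 = Q y.1 := congrArg (fun t => t.1.1) hxy
        have hxy2 : g x.1 = g y.1 := congrArg (fun t => t.1.2.2) hxy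
        have e3 := hQB x.1 y.1 (glue_supp hx).2.1 (glue_supp hy).2.1 hxy1
        show (kB x.1, g x.1) = (kB y.1, g y.1)
        rw [e3, hxy2]
      · exact Det.mk' (fun t => (κ₂ t.1, t.2 0)) fun w _ => rfl
    have e9 : H pA (fun w => ((Q w.1, (f w.1, g w.1)), (Lam₁ w.2, zz a w.2))) =
        H p (fun ω => (Q ω, (f ω, g ω))) + H p₁ (fun ω => (Lam₁ ω, zz a ω)) - H p F₁ := by
      refine H_glue hp hp₁ hf (u := fun ω => (Q ω, (f ω, g ω)))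
        (v := fun ω => (Lam₁ ω, zz a ω)) ?_ ?_
      · intro x y hx hy hxy
        have hxy1 : Q x = Q y := congrArg (fun t => t.1) hxy
        have hxy2 : f x = f y := congrArg (fun t => t.2.1) hxy
        have e3 := hQA x y hx hy hxy1
        show (kA x, f x) = (kA y, f y)
        rw [e3, hxy2]
      · exact Det.mk' (fun t => (κ₁ t.1, t.2 0)) fun w _ => rfl
    have e10 : H pA F₂ = H p₂ G₂ := H_eq_of_im_eq hfg₂
    have e11 : H p F₁ = H p₁ G₁ := H_eq_of_im_eq hf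
    rw [e7, e8, e9, e10, e11]
  have e12 : CH pB Q' (fun w => (zz a' w, zz b' w)) =
    H pB (fun w => (Q' w, (zz a' w, zz b' w))) - H pB Q' := rfl
  have e13 : CH p Q (fun ω => (f ω, g ω)) = H p (fun ω => (Q ω, (f ω, g ω))) - H p Q := rfl
  have e14 : CH p₁ Lam₁ (zz a) = H p₁ (fun ω => (Lam₁ ω, zz a ω)) - H p₁ Lam₁ := rfl
  have e15 : CH p₂ Lam₂ (zz b) = H p₂ (fun ω => (Lam₂ ω, zz b ω)) - H p₂ Lam₂ := rfl
  have e16 : CH p₁ (fun ω => κ₁ (Lam₁ ω)) (a 0) = H p₁ G₁ - H p₁ (fun ω => κ₁ (Lam₁ ω)) := rfl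
  have e17 : CH p₂ (fun ω => κ₂ (Lam₂ ω)) (b 0) = H p₂ G₂ - H p₂ (fun ω => κ₂ (Lam₂ ω)) := rfl
  rw [e12, hjoint] at hJ0
  rw [e13, e14, e15, e16, e17]
  linarith

theorem tJ5 (h : S_J05) : S_J5 := by
  intro Ω₁ Γ₁ K₁ Ω₂ Γ₂ K₂ Ω γ _ _ _ p₁ Lam₁ a κ₁ p₂ Lam₂ b κ₂ n p kA kB f g Q
    htri₁ htri₂ hp hf hg hQA hQB
  obtain ⟨hp₁, c, S, hS, hrel⟩ := htri₁
  obtain ⟨hp₂, d, S', hS', hrel'⟩ := htri₂
  set F₁ : Ω → K₁ × ℝ := fun ω => (kA ω, f ω) with hF₁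
  set G₁ : Ω₁ → K₁ × ℝ := fun ω => (κ₁ (Lam₁ ω), a 0 ω) with hG₁
  set G₂ : Ω₂ → K₂ × ℝ := fun ω => (κ₂ (Lam₂ ω), b 0 ω) with hG₂
  set pA : Ω × Ω₁ → ℝ := glue p p₁ F₁ G₁ with hpA
  set F₂ : Ω × Ω₁ → K₂ × ℝ := fun w => (kB w.1, g w.1) with hF₂
  set pB : (Ω × Ω₁) × Ω₂ → ℝ := glue pA p₂ F₂ G₂ with hpB
  have hA : IsLaw pA := glue_law hp hp₁ hf
  have hfg₂ : ∀ c, im pA F₂ c = im p₂ G₂ c := by
    intro c
    rw [← hg c]
    exact im_glue_fst hp hf (fun ω => (kB ω, g ω)) c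
  have hB : IsLaw pB := glue_law hA hp₂ hfg₂
  -- facts on the support
  have supp : ∀ w, pB w ≠ 0 → kA w.1.1 = κ₁ (Lam₁ w.1.2) ∧ f w.1.1 = a 0 w.1.2 ∧
      kB w.1.1 = κ₂ (Lam₂ w.2) ∧ g w.1.1 = b 0 w.2 ∧ p₁ w.1.2 ≠ 0 ∧ p₂ w.2 ≠ 0 := by
    intro w hw
    obtain ⟨e1, e2, e3⟩ := glue_supp hw
    obtain ⟨e4, e5, e6⟩ := glue_supp e2
    exact ⟨congrArg Prod.fst e4, congrArg Prod.snd e4, congrArg Prod.fst e1,
      congrArg Prod.snd e1, e6, e3⟩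
  let Q' : (Ω × Ω₁) × Ω₂ → (γ × Γ₁) × Γ₂ := fun w => ((Q w.1.1, Lam₁ w.1.2), Lam₂ w.2)
  let a' : Fin 3 → (Ω × Ω₁) × Ω₂ → ℝ := fun k w => c k (Lam₁ w.1.2) * a k w.1.2
  let b' : Fin 3 → (Ω × Ω₁) × Ω₂ → ℝ := fun k w => d k (Lam₂ w.2) * b k w.2
  have hJ0 := h pB Q' a' b' n (fun k q => (S k q.1.2).image (fun x => c k q.1.2 * x))
    (fun k q => (S' k q.2).image (fun x => d k q.2 * x)) hB
    (fun q => ⟨Finset.card_image_le.trans (hS _).1, Finset.card_image_le.trans (hS _).2⟩)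
    (fun q => ⟨Finset.card_image_le.trans (hS' _).1, Finset.card_image_le.trans (hS' _).2⟩) (by
      intro w hw
      obtain ⟨s1, s2, s3, s4, s5, s6⟩ := supp w hw
      obtain ⟨r1, m1, m2, r2⟩ := hrel _ s5
      obtain ⟨r3, m3, m4, r4⟩ := hrel' _ s6
      exact ⟨fun k => ⟨mul_ne_zero (r1 _).1 (r1 _).2, mul_ne_zero (r3 _).1 (r3 _).2⟩,
        Finset.mem_image.2 ⟨a 1 w.1.2, m1, rfl⟩, Finset.mem_image.2 ⟨b 1 w.2, m3, rfl⟩,
        Finset.mem_image.2 ⟨a 2 w.1.2, m2, rfl⟩, Finset.mem_image.2 ⟨b 2 w.2, m4, rfl⟩, r2, r4⟩)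
  -- marginals
  have mar : ∀ {β : Type} (F : Ω → β), H pB (fun w => F w.1.1) = H p F := by
    intro β F
    have e5 := H_glue_fst (q := p₂) (g := G₂) hA hfg₂ (fun w : Ω × Ω₁ => F w.1)
    have e6 := H_glue_fst (q := p₁) (g := G₁) hp hf F
    exact e5.trans e6
  -- the ratio
  have hratio : CH pB Q' (fun w => b' 0 w / a' 0 w) ≤ CH p Q (fun ω => g ω / f ω) := by
    have e1 : CH pB Q' (fun w => b' 0 w / a' 0 w) ≤ CH pB Q' (fun w => g w.1.1 / f w.1.1) := by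
      apply CH_mono hB
      refine Det.mk' (fun t => d 0 t.1.2 / c 0 t.1.1.2 * t.2) fun w hw => ?_
      obtain ⟨s1, s2, s3, s4, s5, s6⟩ := supp w hw
      change d 0 (Lam₂ w.2) * b 0 w.2 / (c 0 (Lam₁ w.1.2) * a 0 w.1.2)
        = d 0 (Lam₂ w.2) / c 0 (Lam₁ w.1.2) * (g w.1.1 / f w.1.1)
      rw [s4, s2, mul_div_mul_comm]
    have e2 : CH pB Q' (fun w => g w.1.1 / f w.1.1) ≤
        CH pB (fun w => Q w.1.1) (fun w => g w.1.1 / f w.1.1) :=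
      CH_anti hB (Det.mk' (fun t => t.1.1) fun w _ => rfl)
    have e3 : CH pB (fun w => Q w.1.1) (fun w => g w.1.1 / f w.1.1) =
        CH p Q (fun ω => g ω / f ω) := by
      unfold CH
      have e4 := mar Q
      have e5 := mar (fun ω => (Q ω, g ω / f ω))
      rw [e4, e5]
    rw [← e3]
    exact e1.trans e2
  -- the entropy of the condition
  have hcond : H pB Q' ≤ H p Q + (H p₁ Lam₁ - H p₁ (fun ω => κ₁ (Lam₁ ω))) +
      (H p₂ Lam₂ - H p₂ (fun ω => κ₂ (Lam₂ ω))) := by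
    have e1 := submod' hB (f := fun w => Q w.1.1) (g := fun w => Lam₁ w.1.2)
      (h := fun w => κ₁ (Lam₁ w.1.2)) (k := fun w => (Q w.1.1, Lam₁ w.1.2))
      (by
        intro x y hx hy hxy
        have e3 := hQA x.1.1 y.1.1 (glue_supp (glue_supp hx).2.1).2.1
          (glue_supp (glue_supp hy).2.1).2.1 hxy
        show κ₁ (Lam₁ x.1.2) = κ₁ (Lam₁ y.1.2)
        rw [← (supp x hx).1, ← (supp y hy).1, e3])
      (Det.mk' (fun t => κ₁ t) fun w _ => rfl) (Det.refl _ _)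
    have e2 := submod' hB (f := fun w => (Q w.1.1, Lam₁ w.1.2)) (g := fun w => Lam₂ w.2)
      (h := fun w => κ₂ (Lam₂ w.2)) (k := Q')
      (by
        intro x y hx hy hxy
        have hxy' : Q x.1.1 = Q y.1.1 := congrArg Prod.fst hxy
        have e3 := hQB x.1.1 y.1.1 (glue_supp (glue_supp hx).2.1).2.1
          (glue_supp (glue_supp hy).2.1).2.1 hxy'
        show κ₂ (Lam₂ x.2) = κ₂ (Lam₂ y.2)
        rw [← (supp x hx).2.2.1, ← (supp y hy).2.2.1, e3])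
      (Det.mk' (fun t => κ₂ t) fun w _ => rfl) (Det.refl _ _)
    have m1 : H pB (fun w => Lam₁ w.1.2) = H p₁ Lam₁ := by
      have e5 := H_glue_fst (q := p₂) (g := G₂) hA hfg₂ (fun w : Ω × Ω₁ => Lam₁ w.2)
      have e6 := H_glue_snd (p := p) (f := F₁) hp₁ hf Lam₁
      exact e5.trans e6
    have m2 : H pB (fun w => κ₁ (Lam₁ w.1.2)) = H p₁ (fun ω => κ₁ (Lam₁ ω)) := by
      have e5 := H_glue_fst (q := p₂) (g := G₂) hA hfg₂ (fun w : Ω × Ω₁ => κ₁ (Lam₁ w.2))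
      have e6 := H_glue_snd (p := p) (f := F₁) hp₁ hf (fun ω => κ₁ (Lam₁ ω))
      exact e5.trans e6
    have m3 : H pB (fun w => Lam₂ w.2) = H p₂ Lam₂ :=
      H_glue_snd (p := pA) (f := F₂) hp₂ hfg₂ Lam₂
    have m4 : H pB (fun w => κ₂ (Lam₂ w.2)) = H p₂ (fun ω => κ₂ (Lam₂ ω)) :=
      H_glue_snd (p := pA) (f := F₂) hp₂ hfg₂ (fun ω => κ₂ (Lam₂ ω))
    have m5 := mar Q
    rw [m1, m2, m5] at e1
    rw [m3, m4] at e2
    linarith
  -- the joint entropy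
  have hjoint : H pB (fun w => (Q' w, (zz a' w, zz b' w))) =
      H p (fun ω => (Q ω, (f ω, g ω))) + H p₁ (fun ω => (Lam₁ ω, zz a ω)) - H p₁ G₁ +
        H p₂ (fun ω => (Lam₂ ω, zz b ω)) - H p₂ G₂ := by
    let big : (Ω × Ω₁) × Ω₂ → ((γ × (ℝ × ℝ)) × (Γ₁ × (Fin 3 → ℝ))) × (Γ₂ × (Fin 3 → ℝ)) :=
      fun w => (((Q w.1.1, (f w.1.1, g w.1.1)), (Lam₁ w.1.2, zz a w.1.2)), (Lam₂ w.2, zz b w.2))
    have e7 : H pB (fun w => (Q' w, (zz a' w, zz b' w))) = H pB big := by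
      apply H_congr hB
      · refine Det.mk' (fun t => (((t.1.1.1, (t.2.1 0 / c 0 t.1.1.2, t.2.2 0 / d 0 t.1.2)),
          (t.1.1.2, fun k => t.2.1 k / c k t.1.1.2)),
          (t.1.2, fun k => t.2.2 k / d k t.1.2))) fun w hw => ?_
        obtain ⟨s1, s2, s3, s4, s5, s6⟩ := supp w hw
        obtain ⟨r1, -, -, r2⟩ := hrel _ s5
        obtain ⟨r3, -, -, r4⟩ := hrel' _ s6
        have q1 : ∀ k, c k (Lam₁ w.1.2) * a k w.1.2 / c k (Lam₁ w.1.2) = a k w.1.2 := fun k =>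
          mul_div_cancel_left₀ _ (r1 k).1
        have q2 : ∀ k, d k (Lam₂ w.2) * b k w.2 / d k (Lam₂ w.2) = b k w.2 := fun k =>
          mul_div_cancel_left₀ _ (r3 k).1
        change (((Q w.1.1, (f w.1.1, g w.1.1)), (Lam₁ w.1.2, zz a w.1.2)),
          (Lam₂ w.2, zz b w.2)) = (((Q w.1.1,
          (c 0 (Lam₁ w.1.2) * a 0 w.1.2 / c 0 (Lam₁ w.1.2),
            d 0 (Lam₂ w.2) * b 0 w.2 / d 0 (Lam₂ w.2))),
          (Lam₁ w.1.2, fun k => c k (Lam₁ w.1.2) * a k w.1.2 / c k (Lam₁ w.1.2))),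
          (Lam₂ w.2, fun k => d k (Lam₂ w.2) * b k w.2 / d k (Lam₂ w.2)))
        simp only [q1, q2]
        rw [s2, s4]
        rfl
      · exact Det.mk' (fun t => (((t.1.1.1, t.1.2.1), t.2.1),
          ((fun k => c k t.1.2.1 * t.1.2.2 k), (fun k => d k t.2.1 * t.2.2 k)))) fun w _ => rfl
    have e8 : H pB big = H pA (fun w => ((Q w.1, (f w.1, g w.1)), (Lam₁ w.2, zz a w.2))) +
        H p₂ (fun ω => (Lam₂ ω, zz b ω)) - H pA F₂ := by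
      refine H_glue hA hp₂ hfg₂ (u := fun w : Ω × Ω₁ => ((Q w.1, (f w.1, g w.1)),
        (Lam₁ w.2, zz a w.2))) (v := fun ω => (Lam₂ ω, zz b ω)) ?_ ?_
      · intro x y hx hy hxy
        have hxy1 : Q x.1 = Q y.1 := congrArg (fun t => t.1.1) hxy
        have hxy2 : g x.1 = g y.1 := congrArg (fun t => t.1.2.2) hxy
        have e3 := hQB x.1 y.1 (glue_supp hx).2.1 (glue_supp hy).2.1 hxy1
        show (kB x.1, g x.1) = (kB y.1, g y.1)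
        rw [e3, hxy2]
      · exact Det.mk' (fun t => (κ₂ t.1, t.2 0)) fun w _ => rfl
    have e9 : H pA (fun w => ((Q w.1, (f w.1, g w.1)), (Lam₁ w.2, zz a w.2))) =
        H p (fun ω => (Q ω, (f ω, g ω))) + H p₁ (fun ω => (Lam₁ ω, zz a ω)) - H p F₁ := by
      refine H_glue hp hp₁ hf (u := fun ω => (Q ω, (f ω, g ω)))
        (v := fun ω => (Lam₁ ω, zz a ω)) ?_ ?_
      · intro x y hx hy hxy
        have hxy1 : Q x = Q y := congrArg (fun t => t.1) hxy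
        have hxy2 : f x = f y := congrArg (fun t => t.2.1) hxy
        have e3 := hQA x y hx hy hxy1
        show (kA x, f x) = (kA y, f y)
        rw [e3, hxy2]
      · exact Det.mk' (fun t => (κ₁ t.1, t.2 0)) fun w _ => rfl
    have e10 : H pA F₂ = H p₂ G₂ := H_eq_of_im_eq hfg₂
    have e11 : H p F₁ = H p₁ G₁ := H_eq_of_im_eq hf
    rw [e7, e8, e9, e10, e11]
  have e12 : CH pB Q' (fun w => (zz a' w, zz b' w)) =
    H pB (fun w => (Q' w, (zz a' w, zz b' w))) - H pB Q' := rfl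
  have e13 : CH p Q (fun ω => (f ω, g ω)) = H p (fun ω => (Q ω, (f ω, g ω))) - H p Q := rfl
  have e14 : CH p₁ Lam₁ (zz a) = H p₁ (fun ω => (Lam₁ ω, zz a ω)) - H p₁ Lam₁ := rfl
  have e15 : CH p₂ Lam₂ (zz b) = H p₂ (fun ω => (Lam₂ ω, zz b ω)) - H p₂ Lam₂ := rfl
  have e16 : CH p₁ (fun ω => κ₁ (Lam₁ ω)) (a 0) = H p₁ G₁ - H p₁ (fun ω => κ₁ (Lam₁ ω)) := rfl
  have e17 : CH p₂ (fun ω => κ₂ (Lam₂ ω)) (b 0) = H p₂ G₂ - H p₂ (fun ω => κ₂ (Lam₂ ω)) := rfl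
  rw [e12, hjoint] at hJ0
  rw [e13, e14, e15, e16, e17]
  linarith

end Pool.Agent.Y569.SP.JJ
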