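import Pool.Agent.Y569.SP.L5
import Pool.Agent.TH408.SP.EX4
import Pool.Agent.TH408.SP.C4

/-!
# Sum-product with exponent 680/507: the entropy of the ratio of the first two forms
-/

set_option autoImplicit false
set_option linter.unusedSectionVars false

open Finset
open scoped Classical Pointwise

namespace Pool.Agent.Y569.SP.X5

open Pool.Agent.W904.AK Pool.Agent.W798.SP Pool.Agent.TH408.SP Pool.Agent.TH408.SP.RB3
open Pool.Agent.TH408.SP.EX4 (copyH)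
open Pool.Agent.TH408.SP.C3 (CH_le_card)
open Pool.Agent.W290.SPX (H_le)

/-- The killed slope. -/
def kp (t : Bool × (ℝ × (ℝ × ℝ))) : ℝ := t.2.1

variable {Ω : Type} [Fintype Ω]

lemma kp_mem {p : Ω → ℝ} {l : Fin 4 → Ω → ℝ} {S : Finset ℝ} {c : ℝ → ℕ}
    (hl : ∀ ω, p ω ≠ 0 → ∀ i, l i ω ∈ S ∧ c (l i ω) = c (l 0 ω)) {ω : Ω} (hω : p ω ≠ 0) :
    c (kp (Lx l ω)) = c (l 0 ω) := by
  rcases L5.cases l (fun _ _ => 0) ω with ⟨-, h2, -, -⟩ | ⟨-, h2, -, -⟩
  · rw [h2]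
    exact (hl ω hω 1).2
  · rw [h2]
    exact (hl ω hω 3).2

theorem tX5 (hJ : S_J5) : S_X5 := by
  intro Ω _ A S T M p l u c h hT hM hMS hS hB hHi hHW hh1 hh2 hT1 hT2 hcls hl
  have hp := hB.law
  have hSpos : 0 < S.card := by omega
  have hSr : (0 : ℝ) < S.card := by exact_mod_cast hSpos
  have hTr : (0 : ℝ) < T := by exact_mod_cast (show 0 < T by omega)
  have hMr : (0 : ℝ) < M := by exact_mod_cast (show 0 < M by omega)
  obtain ⟨X0, hX0⟩ : ∃ X : Ω → ℝ × ℝ, X = fun ω => (l 0 ω, u 0 ω) := ⟨_, rfl⟩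
  obtain ⟨X1, hX1⟩ : ∃ X : Ω → ℝ × ℝ, X = fun ω => (l 1 ω, u 1 ω) := ⟨_, rfl⟩
  obtain ⟨a, ha⟩ : ∃ a : Ω → ℝ, a = fun ω => kp (Lx l ω) := ⟨_, rfl⟩
  obtain ⟨b, hb⟩ : ∃ b : Ω → ℝ, b = fun ω => kp (Lx (lsw l) ω) := ⟨_, rfl⟩
  obtain ⟨f, hf⟩ : ∃ f : Ω → ℝ, f = fx l u := ⟨_, rfl⟩
  obtain ⟨g, hg⟩ : ∃ g : Ω → ℝ, g = fx (lsw l) (usw u) := ⟨_, rfl⟩
  have fv : ∀ ω, f ω = ((X0 ω).1 - a ω) * (X0 ω).2 := by
    intro ω
    rw [hf, hX0, ha]
    rfl
  have gv : ∀ ω, g ω = ((X1 ω).1 - b ω) * (X1 ω).2 := by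
    intro ω
    rw [hg, hX1, hb]
    rfl
  have hl' : ∀ ω, p ω ≠ 0 → ∀ i, lsw l i ω ∈ S ∧ c (lsw l i ω) = c (lsw l 0 ω) := by
    intro ω hω i
    have k0 := hl ω hω
    fin_cases i
    · exact ⟨(k0 1).1, rfl⟩
    · exact ⟨(k0 0).1, (k0 1).2.symm⟩
    · exact ⟨(k0 2).1, (k0 2).2.trans (k0 1).2.symm⟩
    · exact ⟨(k0 3).1, (k0 3).2.trans (k0 1).2.symm⟩
  have ca : ∀ ω, p ω ≠ 0 → c (a ω) = c (l 0 ω) := fun ω hω => by
    rw [ha]
    exact kp_mem hl hω
  have cb : ∀ ω, p ω ≠ 0 → c (b ω) = c (l 1 ω) := fun ω hω => by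
    rw [hb]
    exact kp_mem hl' hω
  -- the first law
  have g1 : ∀ t, im p X0 t = im p X0 t := fun _ => rfl
  obtain ⟨P1, hP1⟩ : ∃ P, P = glue p p X0 X0 := ⟨_, rfl⟩
  have L1 : IsLaw P1 := by rw [hP1]; exact glue_law hp hp g1
  have S1 : ∀ z, P1 z ≠ 0 → X0 z.1 = X0 z.2 ∧ p z.1 ≠ 0 ∧ p z.2 ≠ 0 := by
    intro z hz
    rw [hP1] at hz
    exact glue_supp hz
  have I1 : ∀ {δ : Type} (v : Ω → δ) (t : δ), im P1 (fun z => v z.1) t = im p v t := by
    intro δ v t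
    rw [hP1]
    exact im_glue_fst hp g1 v t
  have I1' : ∀ {δ : Type} (v : Ω → δ) (t : δ), im P1 (fun z => v z.2) t = im p v t := by
    intro δ v t
    rw [hP1]
    exact im_glue_snd hp g1 v t
  -- the second law
  have g2 : ∀ t, im P1 (fun z => X1 z.1) t = im p X1 t := fun t => I1 X1 t
  obtain ⟨P2, hP2⟩ : ∃ P, P = glue P1 p (fun z => X1 z.1) X1 := ⟨_, rfl⟩
  have L2 : IsLaw P2 := by rw [hP2]; exact glue_law L1 hp g2
  have S2 : ∀ z, P2 z ≠ 0 → X1 z.1.1 = X1 z.2 ∧ X0 z.1.1 = X0 z.1.2 ∧ p z.1.1 ≠ 0 ∧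
      p z.1.2 ≠ 0 ∧ p z.2 ≠ 0 := by
    intro z hz
    rw [hP2] at hz
    obtain ⟨e1, e2, e3⟩ := glue_supp hz
    obtain ⟨e4, e5, e6⟩ := S1 _ e2
    exact ⟨e1, e4, e5, e6, e3⟩
  have I2 : ∀ {δ : Type} (v : Ω → δ) (t : δ), im P2 (fun z => v z.1.1) t = im p v t := by
    intro δ v t
    rw [← I1 v t, hP2]
    exact im_glue_fst L1 g2 (fun z => v z.1) t
  have I2' : ∀ {δ : Type} (v : Ω → δ) (t : δ), im P2 (fun z => v z.1.2) t = im p v t := by
    intro δ v t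
    rw [← I1' v t, hP2]
    exact im_glue_fst L1 g2 (fun z => v z.2) t
  have I2'' : ∀ {δ : Type} (v : Ω → δ) (t : δ), im P2 (fun z => v z.2) t = im p v t := by
    intro δ v t
    rw [hP2]
    exact im_glue_snd hp g2 v t
  obtain ⟨Q, hQ⟩ : ∃ Q : (Ω × Ω) × Ω → ℝ × ℝ, Q = fun z => (a z.1.2, b z.2) := ⟨_, rfl⟩
  -- the incidence inequality
  have hj := hJ p (Lx l) ![fx l u, u 2, gx l u] kp p (Lx (lsw l))
    ![fx (lsw l) (usw u), u 2, gx (lsw l) (usw u)] kp (2 * T) P2 (fun z => a z.1.2)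
    (fun z => b z.2) (fun z => f z.1.2) (fun z => g z.2) Q hT1 hT2 L2
    (fun t => by
      rw [ha, hf]
      exact I2' (fun ω => (kp (Lx l ω), fx l u ω)) t)
    (fun t => by
      rw [hb, hg]
      exact I2'' (fun ω => (kp (Lx (lsw l) ω), fx (lsw l) (usw u) ω)) t)
    (Det.mk' (fun t => t.1) fun z _ => by rw [hQ])
    (Det.mk' (fun t => t.2) fun z _ => by rw [hQ])
  obtain ⟨hA, hhA⟩ : ∃ x, x = CH p a f := ⟨_, rfl⟩
  obtain ⟨hBb, hhB⟩ : ∃ x, x = CH p b g := ⟨_, rfl⟩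
  have hj' : 2 * CH P2 Q (fun z => (f z.1.2, g z.2)) ≤
      CH P2 Q (fun z => g z.2 / f z.1.2) + 6 * Real.log ((2 * T : ℕ) : ℝ) + Cst (2 * T) -
        2 * (h - hA) - 2 * (h - hBb) := by
    have e1 : CH p (fun ω => kp (Lx l ω)) ((![fx l u, u 2, gx l u] : Fin 3 → Ω → ℝ) 0) = hA := by
      rw [hhA, ha, hf]
      rfl
    have e2 : CH p (fun ω => kp (Lx (lsw l) ω)) ((![fx (lsw l) (usw u), u 2,
        gx (lsw l) (usw u)] : Fin 3 → Ω → ℝ) 0) = hBb := by
      rw [hhB, hb, hg]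
      rfl
    rw [e1, e2] at hj
    linarith
  -- entropies of the big law
  have c1 : H P2 (fun z => (((X0 z.1.1, X1 z.1.1), a z.1.2), b z.2)) =
      H p (fun ω => (X0 ω, X1 ω)) + CH p X0 a + CH p X1 b := by
    have e1 : H P1 (fun z => ((X0 z.1, X1 z.1), a z.2)) =
        H p (fun ω => (X0 ω, X1 ω)) + CH p X0 a := by
      rw [hP1]
      exact copyH hp hp g1 (U := fun ω => (X0 ω, X1 ω)) (Det.mk' (fun t => t.1) fun _ _ => rfl) a
    rw [← e1, hP2]
    exact copyH L1 hp g2 (U := fun z => ((X0 z.1, X1 z.1), a z.2))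
      (Det.mk' (fun t => t.1.2) fun _ _ => rfl) b
  have c2 : H P2 (fun z => (X0 z.1.1, a z.1.2)) = H p (fun ω => (X0 ω, a ω)) := by
    have e1 : H P2 (fun z => (X0 z.1.1, a z.1.2)) = H P2 (fun z => (X0 z.1.2, a z.1.2)) :=
      H_eq_of_im_eq fun t => im_congr_supp (fun z hz => by rw [(S2 z hz).2.1]) t
    rw [e1]
    exact H_eq_of_im_eq fun t => I2' (fun ω => (X0 ω, a ω)) t
  have c3 : H P2 (fun z => (X1 z.1.1, b z.2)) = H p (fun ω => (X1 ω, b ω)) := by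
    have e1 : H P2 (fun z => (X1 z.1.1, b z.2)) = H P2 (fun z => (X1 z.2, b z.2)) :=
      H_eq_of_im_eq fun t => im_congr_supp (fun z hz => by rw [(S2 z hz).1]) t
    rw [e1]
    exact H_eq_of_im_eq fun t => I2'' (fun ω => (X1 ω, b ω)) t
  have c4 : H P2 (fun z => (a z.1.2, f z.1.2)) = H p (fun ω => (a ω, f ω)) :=
    H_eq_of_im_eq fun t => I2' (fun ω => (a ω, f ω)) t
  have c5 : H P2 (fun z => (b z.2, g z.2)) = H p (fun ω => (b ω, g ω)) :=
    H_eq_of_im_eq fun t => I2'' (fun ω => (b ω, g ω)) t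
  have c6 : H P2 (fun z => a z.1.2) = H p a := H_eq_of_im_eq fun t => I2' a t
  have c7 : H P2 (fun z => b z.2) = H p b := H_eq_of_im_eq fun t => I2'' b t
  -- the two submodularities
  have sA := submod' L2 (f := fun z => (X0 z.1.1, a z.1.2))
    (g := fun z => ((a z.1.2, f z.1.2), (X1 z.1.1, b z.2)))
    (h := fun z => (a z.1.2, f z.1.2))
    (k := fun z => (((X0 z.1.1, X1 z.1.1), a z.1.2), b z.2))
    (Det.mk' (fun t => (t.2, (t.1.1 - t.2) * t.1.2)) fun z hz => by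
      rw [fv, (S2 z hz).2.1])
    (Det.mk' (fun t => t.1) fun z _ => rfl)
    (Det.mk' (fun t => (((t.1.1, t.2.2.1), t.1.2), t.2.2.2)) fun z _ => rfl)
  have sB := submod' L2 (f := fun z => (X1 z.1.1, b z.2))
    (g := fun z => ((a z.1.2, f z.1.2), (b z.2, g z.2)))
    (h := fun z => (b z.2, g z.2))
    (k := fun z => ((a z.1.2, f z.1.2), (X1 z.1.1, b z.2)))
    (Det.mk' (fun t => (t.2, (t.1.1 - t.2) * t.1.2)) fun z hz => by
      rw [gv, (S2 z hz).1])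
    (Det.mk' (fun t => t.2) fun z _ => rfl)
    (Det.mk' (fun t => (t.2.1, t.1)) fun z _ => rfl)
  have sC := submod' L2 (f := fun z => a z.1.2) (g := fun z => b z.2)
    (h := fun z => c (l 0 z.1.1)) (k := Q)
    (Det.mk' c fun z hz => by
      obtain ⟨e1, e2, e3, e4, e5⟩ := S2 z hz
      rw [ca _ e4]
      have : l 0 z.1.1 = l 0 z.1.2 := by
        rw [hX0] at e2
        exact congrArg Prod.fst e2
      rw [this])
    (Det.mk' c fun z hz => by
      obtain ⟨e1, e2, e3, e4, e5⟩ := S2 z hz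
      rw [cb _ e5]
      have : l 1 z.1.1 = l 1 z.2 := by
        rw [hX1] at e1
        exact congrArg Prod.fst e1
      rw [← this, (hl _ e3 1).2])
    (Det.mk' (fun t => t) fun z _ => by rw [hQ])
  have c8 : H P2 (fun z => c (l 0 z.1.1)) = H p (fun ω => c (l 0 ω)) :=
    H_eq_of_im_eq fun t => I2 (fun ω => c (l 0 ω)) t
  rw [c2, c4] at sA
  rw [c3, c5] at sB
  rw [c6, c7, c8] at sC
  rw [c1] at sA
  -- the number of vectors
  have hT2 : ∀ j, ((S.filter (fun b => c b = j)).biUnion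
      (fun b => ({b} : Finset ℝ) ×ˢ fib A b)).card ≤ (S.filter (fun b => c b = j)).card *
        (2 * T) := by
    intro j
    refine Finset.card_biUnion_le.trans ?_
    calc ∑ b ∈ S.filter (fun b => c b = j), (({b} : Finset ℝ) ×ˢ fib A b).card
        ≤ ∑ b ∈ S.filter (fun b => c b = j), 2 * T := by
          apply Finset.sum_le_sum
          intro b hb'
          rw [Finset.card_product, Finset.card_singleton, one_mul]
          exact (hS b (Finset.mem_filter.1 hb').1).2.2.le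
      _ = (S.filter (fun b => c b = j)).card * (2 * T) := by
          rw [Finset.sum_const, smul_eq_mul]
  have hT3 : (S.biUnion (fun b => ({b} : Finset ℝ) ×ˢ fib A b)).card ≤ S.card * (2 * T) := by
    refine Finset.card_biUnion_le.trans ?_
    calc ∑ b ∈ S, (({b} : Finset ℝ) ×ˢ fib A b).card ≤ ∑ b ∈ S, 2 * T := by
          apply Finset.sum_le_sum
          intro b hb'
          rw [Finset.card_product, Finset.card_singleton, one_mul]
          exact (hS b hb').2.2.le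
      _ = S.card * (2 * T) := by
          rw [Finset.sum_const, smul_eq_mul]
  obtain ⟨ω0, hω0⟩ : ∃ ω, p ω ≠ 0 := by
    by_contra hcon
    push Not at hcon
    have := hp.total
    rw [Finset.sum_eq_zero fun ω _ => hcon ω] at this
    exact zero_ne_one this
  have m0 : ∀ ω, p ω ≠ 0 → u 0 ω ∈ fib A (l 0 ω) := fun ω hω => hB.mem ω hω 0
  have m1 : ∀ ω, p ω ≠ 0 → u 1 ω ∈ fib A (l 1 ω) := fun ω hω => hB.mem ω hω 1
  have hX0le : H p X0 ≤ Real.log (S.card * (2 * (T : ℝ))) := by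
    have hmem : ∀ ω, p ω ≠ 0 → X0 ω ∈ S.biUnion (fun b => ({b} : Finset ℝ) ×ˢ fib A b) := by
      intro ω hω
      rw [hX0]
      exact Finset.mem_biUnion.2 ⟨l 0 ω, (hl ω hω 0).1, Finset.mem_product.2
        ⟨Finset.mem_singleton_self _, m0 ω hω⟩⟩
    refine (H_le hp X0 _ hmem).trans ?_
    apply Real.log_le_log
    · exact_mod_cast Finset.card_pos.2 ⟨_, hmem ω0 hω0⟩
    · exact_mod_cast hT3
  have hX1le : H p X1 ≤ Real.log (S.card * (2 * (T : ℝ))) := by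
    have hmem : ∀ ω, p ω ≠ 0 → X1 ω ∈ S.biUnion (fun b => ({b} : Finset ℝ) ×ˢ fib A b) := by
      intro ω hω
      rw [hX1]
      exact Finset.mem_biUnion.2 ⟨l 1 ω, (hl ω hω 1).1, Finset.mem_product.2
        ⟨Finset.mem_singleton_self _, m1 ω hω⟩⟩
    refine (H_le hp X1 _ hmem).trans ?_
    apply Real.log_le_log
    · exact_mod_cast Finset.card_pos.2 ⟨_, hmem ω0 hω0⟩
    · exact_mod_cast hT3
  have hcl : CH p (fun ω => c (l 0 ω)) X0 ≤ Real.log (M * (2 * (T : ℝ))) := by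
    refine CH_le_card hp (fun ω => c (l 0 ω)) X0
      (fun j => (S.filter (fun b => c b = j)).biUnion (fun b => ({b} : Finset ℝ) ×ˢ fib A b)) _
      ?_ ?_
    · intro ω hω
      rw [hX0]
      exact Finset.mem_biUnion.2 ⟨l 0 ω, Finset.mem_filter.2 ⟨(hl ω hω 0).1, rfl⟩,
        Finset.mem_product.2 ⟨Finset.mem_singleton_self _, m0 ω hω⟩⟩
    · intro ω hω
      have e1 := hT2 (c (l 0 ω))
      have e2 := Nat.mul_le_mul_right (2 * T) (hcls (l 0 ω))
      exact_mod_cast e1.trans e2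
  have hccge : H p X0 - Real.log (M * (2 * (T : ℝ))) ≤ H p (fun ω => c (l 0 ω)) := by
    have e1 : H p X0 ≤ H p (fun ω => (c (l 0 ω), X0 ω)) := H_mono hp (Det.snd _ _ _)
    unfold CH at hcl
    linarith
  have hX0ge : Real.log ((S.card : ℝ) * T / 32) ≤ H p X0 := by
    rw [hX0]
    exact hHi 0
  have hXX : Real.log ((M : ℝ) * S.card * T ^ 2 / 16) ≤ H p (fun ω => (X0 ω, X1 ω)) := by
    rw [hX0, hX1]
    exact hHW
  -- the deficiency
  have q1 : CH P2 Q (fun z => (f z.1.2, g z.2)) =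
      H P2 (fun z => ((a z.1.2, f z.1.2), (b z.2, g z.2))) - H P2 Q := by
    have e1 : H P2 (fun z => (Q z, (f z.1.2, g z.2))) =
        H P2 (fun z => ((a z.1.2, f z.1.2), (b z.2, g z.2))) := by
      rw [hQ]
      exact H_congr L2 (Det.mk' (fun t => ((t.1.1, t.2.1), (t.1.2, t.2.2))) fun z _ => rfl)
        (Det.mk' (fun t => ((t.1.1, t.2.1), (t.1.2, t.2.2))) fun z _ => rfl)
    unfold CH
    rw [e1]
  have hnum : Real.log ((S.card : ℝ) * T / 32) - Real.log (M * (2 * (T : ℝ))) +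
      Real.log ((M : ℝ) * S.card * T ^ 2 / 16) - 2 * Real.log (S.card * (2 * (T : ℝ))) =
      -(12 * Real.log 2) := by
    have l32 : Real.log 32 = 5 * Real.log 2 := by
      rw [show (32 : ℝ) = 2 ^ 5 by norm_num, Real.log_pow]
      push_cast
      ring
    have l16 : Real.log 16 = 4 * Real.log 2 := by
      rw [show (16 : ℝ) = 2 ^ 4 by norm_num, Real.log_pow]
      push_cast
      ring
    rw [Real.log_div (by positivity) (by positivity), Real.log_div (by positivity) (by positivity),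
      Real.log_mul (x := (S.card : ℝ)) (y := (T : ℝ)) (by positivity) (by positivity),
      Real.log_mul (x := (M : ℝ)) (y := 2 * (T : ℝ)) (by positivity) (by positivity),
      Real.log_mul (x := (2 : ℝ)) (y := (T : ℝ)) (by positivity) (by positivity),
      Real.log_mul (x := (M : ℝ) * S.card) (y := (T : ℝ) ^ 2) (by positivity) (by positivity),
      Real.log_mul (x := (M : ℝ)) (y := (S.card : ℝ)) (by positivity) (by positivity),
      Real.log_mul (x := (S.card : ℝ)) (y := 2 * (T : ℝ)) (by positivity) (by positivity),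
      Real.log_mul (x := (2 : ℝ)) (y := (T : ℝ)) (by positivity) (by positivity),
      Real.log_pow, l32, l16]
    push_cast
    ring
  have hdef : hA + hBb - 12 * Real.log 2 ≤ CH P2 Q (fun z => (f z.1.2, g z.2)) := by
    rw [q1, hhA, hhB]
    unfold CH at sA ⊢
    linarith
  -- the ratio
  have r1 : CH P2 Q (fun z => g z.2 / f z.1.2) ≤
      CH P2 Q (fun z => ((l 0 z.1.1, l 1 z.1.1), u 1 z.1.1 / u 0 z.1.1)) := by
    apply CH_mono L2
    refine Det.mk' (fun t => (t.2.1.2 - t.1.2) / (t.2.1.1 - t.1.1) * t.2.2) fun z hz => ?_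
    obtain ⟨e1, e2, e3, e4, e5⟩ := S2 z hz
    have d1 : f z.1.2 = (l 0 z.1.1 - a z.1.2) * u 0 z.1.1 := by
      rw [fv, ← e2, hX0]
    have d2 : g z.2 = (l 1 z.1.1 - b z.2) * u 1 z.1.1 := by
      rw [gv, ← e1, hX1]
    rw [d1, d2, hQ]
    show (l 1 z.1.1 - b z.2) * u 1 z.1.1 / ((l 0 z.1.1 - a z.1.2) * u 0 z.1.1) =
      (l 1 z.1.1 - b z.2) / (l 0 z.1.1 - a z.1.2) * (u 1 z.1.1 / u 0 z.1.1)
    rw [mul_div_mul_comm]
  have r2 := CH_chain L2 Q (fun z => (l 0 z.1.1, l 1 z.1.1)) (fun z => u 1 z.1.1 / u 0 z.1.1)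
  have r3 : CH P2 (fun z => (Q z, (l 0 z.1.1, l 1 z.1.1))) (fun z => u 1 z.1.1 / u 0 z.1.1) ≤
      CH P2 (fun z => (l 0 z.1.1, l 1 z.1.1)) (fun z => u 1 z.1.1 / u 0 z.1.1) :=
    CH_anti L2 (Det.mk' (fun t => t.2) fun z _ => rfl)
  have r4 : CH P2 (fun z => (l 0 z.1.1, l 1 z.1.1)) (fun z => u 1 z.1.1 / u 0 z.1.1) =
      CH p (fun ω => (l 0 ω, l 1 ω)) (fun ω => u 1 ω / u 0 ω) :=
    CH_of_im fun t => I2 (fun ω => ((l 0 ω, l 1 ω), u 1 ω / u 0 ω)) t
  have r5 : CH P2 Q (fun z => (l 0 z.1.1, l 1 z.1.1)) ≤ 2 * Real.log M := by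
    have e0 := CH_le_card L2 Q (fun z => (l 0 z.1.1, l 1 z.1.1))
      (fun q => (S.filter (fun b => c b = c q.1)) ×ˢ (S.filter (fun b => c b = c q.1)))
      ((M : ℝ) ^ 2) (fun z hz => by
        obtain ⟨e1, e2, e3, e4, e5⟩ := S2 z hz
        have e6 : c (a z.1.2) = c (l 0 z.1.1) := by
          rw [ca _ e4]
          rw [hX0] at e2
          exact congrArg c (congrArg Prod.fst e2).symm
        rw [hQ]
        exact Finset.mem_product.2 ⟨Finset.mem_filter.2 ⟨(hl _ e3 0).1, e6.symm⟩,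
          Finset.mem_filter.2 ⟨(hl _ e3 1).1, (hl _ e3 1).2.trans e6.symm⟩⟩)
      (fun z _ => by
        rw [Finset.card_product, Nat.cast_mul, sq]
        have := hcls (Q z).1
        gcongr)
    rw [Real.log_pow] at e0
    exact_mod_cast e0
  linarith

end Pool.Agent.Y569.SP.X5
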