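import Pool.Agent.TH408.SP.Chain4
import Pool.Agent.Y569.SP.JJ
import Pool.Agent.Y569.SP.PR5
import Pool.Agent.Y569.SP.EX5
import Pool.Agent.Y569.SP.C5
import Pool.Agent.Y569.SP.X5
import Pool.Agent.Y569.SP.AS5
import Pool.Agent.Y569.SP.PO5

/-!
# Sum-product with exponent 680/507: the chain of the parts
-/

set_option autoImplicit false

namespace Pool.Agent.Y569.SP

open Pool.Agent.W798.SP Pool.Agent.TH408.SP

theorem pJ05 : S_J05 := J5.tJ05 pSTC pGC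
theorem pJ5 : S_J5 := JJ.tJ5 pJ05
theorem pJW0 : S_JW0 := J5.tJW0 pSTC pGC
theorem pJW : S_JW := JJ.tJW pJW0
theorem pPR5 : S_PR5 := PR5.tPR5 pJW
theorem pEX5 : S_EX5 := EX5.tEX5 pPR5 pSR
theorem pCL5 : S_CL5 := C5.tCL5 pC04
theorem pX5 : S_X5 := X5.tX5 pJ5
theorem pAS5 : S_AS5 := AS5.tAS5 pCL5 pX5 pEX5 pFI4
theorem pPO5 : S_PO5 := PO5.tPO5 pAS5 pDY3 pEN pCS
theorem pRE5 : S_RE5 := PO5.tRE5 pPO5

end Pool.Agent.Y569.SP
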