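import Pool.Agent.Y666.SP.Stm2

/-!
# Project SP, part 2: injective choices (job SP2-GREEDY)
-/

set_option autoImplicit false

namespace Pool.Agent.Y569.SP

open Pool.Agent.Y666.SP Cardinal

/-- greedy choice in a small family -/
theorem small {K α : Type} (κ : Cardinal.{0}) (A : K → Set α) (hK : #K ≤ κ)
    (hA : ∀ i, κ ≤ #(A i)) : ∃ f : K → α, Function.Injective f ∧ ∀ i, f i ∈ A i := by
  classical
  by_cases hne : Nonempty K
  swap
  · rw [not_nonempty_iff] at hne
    exact ⟨fun i => (hne.false i).elim, fun i => (hne.false i).elim, fun i => (hne.false i).elim⟩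
  obtain ⟨r, wo, hr⟩ := Cardinal.exists_ord_eq K
  have wf : WellFounded r := wo.wf
  have hseg : ∀ x : K, #{y // r y x} < κ := by
    intro x
    have h1 := Cardinal.card_typein_lt (r := r) x hr
    rw [Ordinal.card_typein] at h1
    exact lt_of_lt_of_le h1 hK
  -- existence of a new value
  have hnew : ∀ (x : K) (g : ∀ y, r y x → α), ∃ a ∈ A x, ∀ y (hy : r y x), g y hy ≠ a := by
    intro x g
    by_contra hcon
    push Not at hcon
    have hsub : A x ⊆ Set.range (fun y : {y // r y x} => g y.1 y.2) := by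
      intro a ha
      obtain ⟨y, hy, hya⟩ := hcon a ha
      exact ⟨⟨y, hy⟩, hya⟩
    have h1 : #(A x) ≤ #{y // r y x} := (Cardinal.mk_le_mk_of_subset hsub).trans Cardinal.mk_range_le
    exact absurd (lt_of_le_of_lt ((hA x).trans h1) (hseg x)) (lt_irrefl _)
  choose N hN1 hN2 using hnew
  let f : K → α := wf.fix (fun x ih => N x ih)
  have hf : ∀ x, f x = N x (fun y _ => f y) := by
    intro x
    exact wf.fix_eq _ x
  refine ⟨f, ?_, ?_⟩
  · intro x y hxy
    rcases trichotomous_of r x y with h | h | h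
    · exfalso
      have := hN2 y (fun z _ => f z) x h
      rw [← hf y] at this
      exact this hxy
    · exact h
    · exfalso
      have := hN2 x (fun z _ => f z) y h
      rw [← hf x] at this
      exact this hxy.symm
  · intro x
    rw [hf x]
    exact hN1 _ _

/-- iterated neighbourhoods -/
def NN {ι : Type} (nb : ι → Set ι) (i : ι) : ℕ → Set ι
  | 0 => {i}
  | n + 1 => ⋃ j : NN nb i n, nb j

theorem greedy : S_GREEDY := by
  classical
  intro ι α κ T hκ hT hdeg
  have hshr : ∀ i, ∃ S : Set α, S ⊆ T i ∧ #S = κ := by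
    intro i
    obtain ⟨S, hS, hc⟩ := Cardinal.le_mk_iff_exists_subset.1 (hT i)
    exact ⟨S, hS, hc⟩
  choose S hS hc using hshr
  let rel : ι → ι → Prop := fun i j => (S i ∩ S j).Nonempty
  let nb : ι → Set ι := fun i => {j | rel i j}
  have hnb : ∀ i, #(nb i) ≤ κ := by
    intro i
    have hsub : nb i ⊆ ⋃ a : S i, {j | (a : α) ∈ T j} := by
      rintro j ⟨a, ha1, ha2⟩
      exact Set.mem_iUnion.2 ⟨⟨a, ha1⟩, hS j ha2⟩
    refine (Cardinal.mk_le_mk_of_subset hsub).trans ?_
    refine (Cardinal.mk_iUnion_le _).trans ?_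
    rw [hc i]
    refine (mul_le_mul' le_rfl (ciSup_le' fun a : S i =>
      (hdeg a.1 : #{j | (a.1 : α) ∈ T j} ≤ κ))).trans ?_
    rw [Cardinal.mul_eq_self hκ]
  let N : ℕ → ι → Set ι := fun n i => NN nb i n
  have hN0 : ∀ i, N 0 i = {i} := fun i => rfl
  have hNs : ∀ n i, N (n + 1) i = ⋃ j : N n i, nb j := fun n i => rfl
  have hNc : ∀ n i, #(N n i) ≤ κ := by
    intro n i
    induction n with
    | zero =>
      rw [hN0, Cardinal.mk_singleton]
      exact (Cardinal.one_le_aleph0).trans hκ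
    | succ n ih =>
      rw [hNs]
      refine (Cardinal.mk_iUnion_le _).trans ?_
      refine (mul_le_mul' ih (ciSup_le' fun a : N n i => hnb a.1)).trans ?_
      rw [Cardinal.mul_eq_self hκ]
  have hcl : ∀ i j, Relation.EqvGen rel i j → ∃ n, j ∈ N n i := by
    have hstep : ∀ i j k, (∃ n, j ∈ N n i) → rel j k → ∃ n, k ∈ N n i := by
      rintro i j k ⟨n, hn⟩ hjk
      exact ⟨n + 1, by rw [hNs]; exact Set.mem_iUnion.2 ⟨⟨j, hn⟩, hjk⟩⟩
    have hsymm : ∀ i j, rel i j → rel j i := by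
      rintro i j ⟨a, h1, h2⟩
      exact ⟨a, h2, h1⟩
    have hgen : ∀ j k, Relation.EqvGen rel j k →
        (∀ i, (∃ n, j ∈ N n i) → ∃ n, k ∈ N n i) ∧ (∀ i, (∃ n, k ∈ N n i) → ∃ n, j ∈ N n i) := by
      intro j k h
      induction h with
      | rel x y h => exact ⟨fun i hx => hstep i x y hx h, fun i hy => hstep i y x hy (hsymm _ _ h)⟩
      | refl x => exact ⟨fun i hx => hx, fun i hx => hx⟩
      | symm x y _ ih => exact ⟨ih.2, ih.1⟩
      | trans x y z _ _ ih1 ih2 => exact ⟨fun i hx => ih2.1 i (ih1.1 i hx),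
          fun i hz => ih1.2 i (ih2.2 i hz)⟩
    intro i j h
    exact (hgen i j h).1 i ⟨0, by rw [hN0]; rfl⟩
  let st : Setoid ι := Relation.EqvGen.setoid rel
  have hclass : ∀ q : Quotient st, #{i // (Quotient.mk st i) = q} ≤ κ := by
    intro q
    obtain ⟨i, rfl⟩ := Quotient.exists_rep q
    have hsub : {j | Quotient.mk st j = Quotient.mk st i} ⊆ ⋃ n : ULift.{0} ℕ, N n.down i := by
      intro j hj
      have h1 : Relation.EqvGen rel j i := Quotient.exact hj
      obtain ⟨n, hn⟩ := hcl i j (Relation.EqvGen.symm _ _ h1)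
      exact Set.mem_iUnion.2 ⟨⟨n⟩, hn⟩
    refine (Cardinal.mk_le_mk_of_subset hsub).trans ?_
    refine (Cardinal.mk_iUnion_le _).trans ?_
    refine (mul_le_mul' (Cardinal.mk_le_aleph0) (ciSup_le' fun a : ULift.{0} ℕ => hNc a.down i)).trans ?_
    exact (mul_le_mul' hκ le_rfl).trans (by rw [Cardinal.mul_eq_self hκ])
  have hf : ∀ q : Quotient st, ∃ f : {i // (Quotient.mk st i) = q} → α,
      Function.Injective f ∧ ∀ i, f i ∈ S i.1 := by
    intro q
    exact small κ (fun i : {i // (Quotient.mk st i) = q} => S i.1) (hclass q)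
      (fun i => (hc i.1).ge)
  choose f hf1 hf2 using hf
  refine ⟨fun i => f (Quotient.mk st i) ⟨i, rfl⟩, ?_, fun i => hS i (hf2 (Quotient.mk st i) ⟨i, rfl⟩)⟩
  intro i j hij
  have hi : f (Quotient.mk st i) ⟨i, rfl⟩ ∈ S i := hf2 (Quotient.mk st i) ⟨i, rfl⟩
  have hj : f (Quotient.mk st j) ⟨j, rfl⟩ ∈ S j := hf2 (Quotient.mk st j) ⟨j, rfl⟩
  have hij' : f (Quotient.mk st i) ⟨i, rfl⟩ = f (Quotient.mk st j) ⟨j, rfl⟩ := hij
  have hq : Quotient.mk st i = Quotient.mk st j := by
    apply Quotient.sound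
    exact Relation.EqvGen.rel _ _ ⟨_, hi, by rw [hij']; exact hj⟩
  have hgen : ∀ (q : Quotient st) (h : Quotient.mk st j = q),
      f (Quotient.mk st j) ⟨j, rfl⟩ = f q ⟨j, h⟩ := by
    rintro _ rfl
    rfl
  rw [hgen _ hq.symm] at hij'
  exact congrArg Subtype.val (hf1 _ hij')

end Pool.Agent.Y569.SP
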