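import Pool.Agent.Y666.SP.Stm2

/-!
# Project SP, part 2: gluing along a well-ordered family (job SP2-GZ)
-/

set_option autoImplicit false

namespace Pool.Agent.Y569.SP

open Pool.Agent.Y666.SP

theorem gz : S_GZ := by
  classical
  intro ι _ _ α _ S hmono h0 hsucc hlim
  -- recursion
  let G : ∀ i : ι, (∀ j, j < i → Set α × (α → α)) → Set α × (α → α) := fun i ih =>
    if h : ∃ p : Set α × (α → α), Spine (S i) p.1 p.2 ∧
      ∀ j (hj : j < i), p.1 ∩ S j = (ih j hj).1 ∧ ∀ x ∈ S j, p.2 x = (ih j hj).2 x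
    then h.choose else (∅, id)
  have wf : WellFounded (fun a b : ι => a < b) := wellFounded_lt
  let F : ι → Set α × (α → α) := wf.fix G
  have hF : ∀ i, F i = G i (fun j _ => F j) := fun i => wf.fix_eq G i
  have hstep : ∀ i, (∃ p : Set α × (α → α), Spine (S i) p.1 p.2 ∧
      ∀ j, j < i → p.1 ∩ S j = (F j).1 ∧ ∀ x ∈ S j, p.2 x = (F j).2 x) →
      Spine (S i) (F i).1 (F i).2 ∧
        ∀ j, j < i → (F i).1 ∩ S j = (F j).1 ∧ ∀ x ∈ S j, (F i).2 x = (F j).2 x := by
    intro i h
    have h1 : F i = h.choose := by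
      rw [hF i]
      exact dif_pos h
    rw [h1]
    exact h.choose_spec
  have main : ∀ i, Spine (S i) (F i).1 (F i).2 ∧
        ∀ j, j < i → (F i).1 ∩ S j = (F j).1 ∧ ∀ x ∈ S j, (F i).2 x = (F j).2 x := by
    intro i
    induction i using wf.induction with
    | _ i ih =>
    apply hstep
    -- coherence below i
    have hsub : ∀ j k, j < i → k < i → j ≤ k → (F j).1 ⊆ (F k).1 := by
      intro j k hj hk hjk
      rcases eq_or_lt_of_le hjk with h | h
      · rw [h]
      · rw [← ((ih k hk).2 j h).1]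
        exact Set.inter_subset_left
    have hinter : ∀ j k, j < i → k < i → j ≤ k → (F k).1 ∩ S j ⊆ (F j).1 := by
      intro j k hj hk hjk
      rcases eq_or_lt_of_le hjk with h | h
      · rw [h]
        exact Set.inter_subset_left
      · rw [← ((ih k hk).2 j h).1]
    have hfun : ∀ j k, j < i → k < i → ∀ x, x ∈ S j → x ∈ S k → (F j).2 x = (F k).2 x := by
      intro j k hj hk x hxj hxk
      rcases lt_trichotomy j k with h | h | h
      · exact (((ih k hk).2 j h).2 x hxj).symm
      · rw [h]
      · exact ((ih j hj).2 k h).2 x hxk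
    by_cases hA : ∃ j, j < i
    swap
    · -- least index
      push Not at hA
      obtain ⟨C, hC, hch, f, hf1, hf2, hf3⟩ := h0 i (fun j => not_lt.2 (hA j))
      exact ⟨(C, f), ⟨hC, hch, hf1, hf2, hf3⟩, fun j hj => absurd hj (not_lt.2 (hA j))⟩
    by_cases hB : ∃ j, j < i ∧ ∀ k, k < i → k ≤ j
    · -- successor
      obtain ⟨j, hj, hmax⟩ := hB
      obtain ⟨C', f', hsp, hc, hf⟩ := hsucc j i hj hmax (F j).1 (F j).2 (ih j hj).1
      refine ⟨(C', f'), hsp, fun k hk => ?_⟩
      have hkj := hmax k hk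
      refine ⟨?_, ?_⟩
      · show C' ∩ S k = (F k).1
        apply Set.Subset.antisymm
        · rintro x ⟨hx1, hx2⟩
          have hxj : x ∈ (F j).1 := by
            rw [← hc]
            exact ⟨hx1, hmono k j hkj hx2⟩
          exact hinter k j hk hj hkj ⟨hxj, hx2⟩
        · intro x hx
          have hx2 : x ∈ (F j).1 := hsub k j hk hj hkj hx
          rw [← hc] at hx2
          exact ⟨hx2.1, (ih k hk).1.sub hx⟩
      · intro x hx
        show f' x = (F k).2 x
        rw [hf x (hmono k j hkj hx)]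
        exact hfun j k hj hk x (hmono k j hkj hx) hx
    · -- limit
      push Not at hB
      have hl := hlim i hA (fun j hj => by
        obtain ⟨k, hk, hjk⟩ := hB j hj
        exact ⟨k, hk, hjk⟩)
      let C : Set α := {c | ∃ j, j < i ∧ c ∈ (F j).1}
      let f : α → α := fun x => if h : ∃ j, j < i ∧ x ∈ S j then (F h.choose).2 x else x
      have hf : ∀ j, j < i → ∀ x ∈ S j, f x = (F j).2 x := by
        intro j hj x hx
        have h : ∃ j, j < i ∧ x ∈ S j := ⟨j, hj, hx⟩
        show (if h : ∃ j, j < i ∧ x ∈ S j then (F h.choose).2 x else x) = _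
        rw [dif_pos h]
        exact hfun _ _ h.choose_spec.1 hj x h.choose_spec.2 hx
      refine ⟨(C, f), ⟨?_, ?_, ?_, ?_, ?_⟩, ?_⟩
      · rintro c ⟨j, hj, hc⟩
        exact hmono j i hj.le ((ih j hj).1.sub hc)
      · rintro c ⟨j, hj, hc⟩ c' ⟨k, hk, hc'⟩ hne
        rcases le_total j k with h | h
        · exact (ih k hk).1.chain (hsub j k hj hk h hc) hc' hne
        · exact (ih j hj).1.chain hc (hsub k j hk hj h hc') hne
      · intro x hx
        obtain ⟨j, hj, hxj⟩ := hl x hx
        exact ⟨j, hj, by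
          show f x ∈ _
          rw [hf j hj x hxj]
          exact (ih j hj).1.map x hxj⟩
      · rintro c ⟨j, hj, hc⟩
        show f c = c
        rw [hf j hj c ((ih j hj).1.sub hc)]
        exact (ih j hj).1.fix c hc
      · intro x hx y hy hxy
        obtain ⟨j, hj, hxj⟩ := hl x hx
        obtain ⟨k, hk, hyk⟩ := hl y hy
        have hxy' : f x = f y := hxy
        rcases le_total j k with h | h
        · rw [hf k hk x (hmono j k h hxj), hf k hk y hyk] at hxy'
          exact (ih k hk).1.anti x (hmono j k h hxj) y hyk hxy'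
        · rw [hf j hj x hxj, hf j hj y (hmono k j h hyk)] at hxy'
          exact (ih j hj).1.anti x hxj y (hmono k j h hyk) hxy'
      · intro k hk
        refine ⟨?_, fun x hx => hf k hk x hx⟩
        apply Set.Subset.antisymm
        · rintro x ⟨⟨j, hj, hx1⟩, hx2⟩
          rcases le_total j k with h | h
          · exact hsub j k hj hk h hx1
          · exact hinter k j hk hj h ⟨hx1, hx2⟩
        · intro x hx
          exact ⟨⟨k, hk, hx⟩, (ih k hk).1.sub hx⟩
  intro i
  obtain ⟨h, _⟩ := main i
  exact ⟨(F i).1, h.sub, h.chain, (F i).2, h.map, h.fix, h.anti⟩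

end Pool.Agent.Y569.SP
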