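import Pool.Agent.Y569.SP.Stm

/-!
# Sum-product with exponent 680/507: the incidence inequalities for two copies
-/

set_option autoImplicit false
set_option linter.unusedSectionVars false

open Finset
open scoped Classical

namespace Pool.Agent.Y569.SP.J5

open Pool.Agent.W904.AK Pool.Agent.W798.SP Pool.Agent.TH408.SP
open Pool.Agent.TH408.SP.J3 (lines card_lines mem_lines log_mul_self' CH_pair_le Cst_mono)

/-- The lines through two grids: through `(x, y)` with the slope of `(x + z, y + w)`. -/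
noncomputable def lines2 (A B C D : Finset ℝ) : Finset (ℝ × ℝ) :=
  (A ×ˢ (B ×ˢ (C ×ˢ D))).image fun t =>
    ((t.2.1 + t.2.2.2) / (t.1 + t.2.2.1), t.2.1 - (t.2.1 + t.2.2.2) / (t.1 + t.2.2.1) * t.1)

lemma card_lines2 {A B C D : Finset ℝ} {n : ℕ} (hA : A.card ≤ n) (hB : B.card ≤ n)
    (hC : C.card ≤ n) (hD : D.card ≤ n) : (lines2 A B C D).card ≤ (n * n) ^ 2 := by
  refine Finset.card_image_le.trans ?_
  rw [Finset.card_product, Finset.card_product, Finset.card_product]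
  calc A.card * (B.card * (C.card * D.card)) ≤ n * (n * (n * n)) :=
        Nat.mul_le_mul hA (Nat.mul_le_mul hB (Nat.mul_le_mul hC hD))
    _ = (n * n) ^ 2 := by ring

lemma mem_lines2 {A B C D : Finset ℝ} {x y z w r : ℝ} (hx : x ∈ A) (hy : y ∈ B) (hz : z ∈ C)
    (hw : w ∈ D) (hr : r = (y + w) / (x + z)) : (r, y - r * x) ∈ lines2 A B C D := by
  unfold lines2
  rw [Finset.mem_image, hr]
  exact ⟨(x, (y, (z, w))), by simp [hx, hy, hz, hw], rfl⟩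

theorem tJ05 (h1 : S_STC) (h2 : S_GC) : S_J05 := by
  intro Ω γ _ p Q a b n S S' hp hS hS' hω
  have hsum : ∀ ω, p ω ≠ 0 → a 0 ω = - a 1 ω - a 2 ω ∧ b 0 ω = - b 1 ω - b 2 ω := by
    intro ω h
    obtain ⟨-, -, -, -, -, e1, e2⟩ := hω ω h
    rw [Fin.sum_univ_three] at e1 e2
    constructor <;> linarith
  have hra : ∀ ω, p ω ≠ 0 → b 0 ω / a 0 ω * a 0 ω = b 0 ω := fun ω h =>
    div_mul_cancel₀ _ ((hω ω h).1 0).1
  have hrq : ∀ ω, p ω ≠ 0 → b 0 ω / a 0 ω = (b 1 ω + b 2 ω) / (a 1 ω + a 2 ω) := by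
    intro ω h
    obtain ⟨e1, e2⟩ := hsum ω h
    have e3 : a 1 ω + a 2 ω = - a 0 ω := by linarith
    have e4 : b 1 ω + b 2 ω = - b 0 ω := by linarith
    rw [e3, e4, neg_div_neg_eq]
  have hβ : ∀ ω, p ω ≠ 0 →
      -(b 1 ω - b 0 ω / a 0 ω * a 1 ω) = b 2 ω - b 0 ω / a 0 ω * a 2 ω := by
    intro ω h
    obtain ⟨e1, e2⟩ := hsum ω h
    have e3 := hra ω h
    have e4 : a 2 ω = - a 0 ω - a 1 ω := by linarith
    have e5 : b 2 ω = - b 0 ω - b 1 ω := by linarith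
    rw [e4, e5]
    linear_combination -e3
  -- the first point
  have s1 := h1 p Q (a 1) (b 1) (fun ω => b 0 ω / a 0 ω)
    (fun ω => b 1 ω - b 0 ω / a 0 ω * a 1 ω) n n (S 1) (S' 1)
    (fun q => lines2 (S 1 q) (S' 1 q) (S 2 q) (S' 2 q)) hp (fun q => (hS q).1)
    (fun q => (hS' q).1)
    (fun q => card_lines2 (hS q).1 (hS' q).1 (hS q).2 (hS' q).2)
    (fun ω h => by
      obtain ⟨e, m1, m2, m3, m4, -, -⟩ := hω ω h
      exact ⟨m1, m2, div_ne_zero (e 0).2 (e 0).1, by ring,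
        mem_lines2 m1 m2 m3 m4 (hrq ω h)⟩)
  -- the second point
  have s2 := h1 p Q (a 2) (b 2) (fun ω => b 0 ω / a 0 ω)
    (fun ω => -(b 1 ω - b 0 ω / a 0 ω * a 1 ω)) n n (S 2) (S' 2)
    (fun q => lines2 (S 2 q) (S' 2 q) (S 1 q) (S' 1 q)) hp (fun q => (hS q).2)
    (fun q => (hS' q).2)
    (fun q => card_lines2 (hS q).2 (hS' q).2 (hS q).1 (hS' q).1)
    (fun ω h => by
      obtain ⟨e, m1, m2, m3, m4, -, -⟩ := hω ω h
      refine ⟨m3, m4, div_ne_zero (e 0).2 (e 0).1, ?_, ?_⟩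
      · rw [hβ ω h]; ring
      · rw [hβ ω h]
        refine mem_lines2 m3 m4 m1 m2 ?_
        rw [hrq ω h, add_comm (b 1 ω), add_comm (a 1 ω)])
  have s2a : CH p Q (fun ω => (b 0 ω / a 0 ω, -(b 1 ω - b 0 ω / a 0 ω * a 1 ω))) =
      CH p Q (fun ω => (b 0 ω / a 0 ω, b 1 ω - b 0 ω / a 0 ω * a 1 ω)) :=
    CH_eq hp (Det.mk' (fun t => (t.2.1, -t.2.2)) fun ω _ => by simp)
      (Det.mk' (fun t => (t.2.1, -t.2.2)) fun ω _ => by simp)
  have s2b : CH p Q (fun ω => ((b 0 ω / a 0 ω, -(b 1 ω - b 0 ω / a 0 ω * a 1 ω)),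
      (a 2 ω, b 2 ω))) =
      CH p Q (fun ω => ((b 0 ω / a 0 ω, b 1 ω - b 0 ω / a 0 ω * a 1 ω), (a 2 ω, b 2 ω))) :=
    CH_eq hp (Det.mk' (fun t => ((t.2.1.1, -t.2.1.2), t.2.2)) fun ω _ => by simp)
      (Det.mk' (fun t => ((t.2.1.1, -t.2.1.2), t.2.2)) fun ω _ => by simp)
  rw [s2a, s2b] at s2
  -- submodularity
  have s3 := CH_submod hp (Q := Q)
    (f := fun ω => ((b 0 ω / a 0 ω, b 1 ω - b 0 ω / a 0 ω * a 1 ω), (a 1 ω, b 1 ω)))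
    (g := fun ω => ((b 0 ω / a 0 ω, b 1 ω - b 0 ω / a 0 ω * a 1 ω), (a 2 ω, b 2 ω)))
    (h := fun ω => (b 0 ω / a 0 ω, b 1 ω - b 0 ω / a 0 ω * a 1 ω))
    (k := fun ω => (zz a ω, zz b ω))
    (Det.mk' (fun t => t.2.1) fun ω _ => rfl) (Det.mk' (fun t => t.2.1) fun ω _ => rfl)
    (Det.mk' (fun t => ((![-t.2.1.2.1 - t.2.2.2.1, t.2.1.2.1, t.2.2.2.1] : Fin 3 → ℝ),
      (![-t.2.1.2.2 - t.2.2.2.2, t.2.1.2.2, t.2.2.2.2] : Fin 3 → ℝ))) fun ω h => by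
      obtain ⟨e1, e2⟩ := hsum ω h
      refine Prod.ext ?_ ?_
      · funext i
        fin_cases i
        · exact e1
        · rfl
        · rfl
      · funext i
        fin_cases i
        · exact e2
        · rfl
        · rfl)
  -- trivial bounds
  have s4 := CH_subadd hp (Q := Q) (f := fun ω => b 0 ω / a 0 ω) (g := fun ω => (a 1 ω, b 1 ω))
    (k := fun ω => ((b 0 ω / a 0 ω, b 1 ω - b 0 ω / a 0 ω * a 1 ω), (a 1 ω, b 1 ω)))
    (Det.mk' (fun t => ((t.2.1, t.2.2.2 - t.2.1 * t.2.2.1), t.2.2)) fun ω _ => rfl)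
  have s5 := CH_subadd hp (Q := Q) (f := fun ω => b 0 ω / a 0 ω) (g := fun ω => (a 2 ω, b 2 ω))
    (k := fun ω => ((b 0 ω / a 0 ω, b 1 ω - b 0 ω / a 0 ω * a 1 ω), (a 2 ω, b 2 ω)))
    (Det.mk' (fun t => ((t.2.1, -(t.2.2.2 - t.2.1 * t.2.2.1)), t.2.2)) fun ω h => by
      have e := hβ ω h
      refine Prod.ext (Prod.ext rfl ?_) rfl
      show b 1 ω - b 0 ω / a 0 ω * a 1 ω = -(b 2 ω - b 0 ω / a 0 ω * a 2 ω)
      rw [← e, neg_neg])
  have s6 := CH_pair_le h2 Q (a 1) (b 1) n (S 1) (S' 1) hp (fun q => (hS q).1)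
    (fun q => (hS' q).1) (fun ω h => ⟨(hω ω h).2.1, (hω ω h).2.2.1⟩)
  have s7 := CH_pair_le h2 Q (a 2) (b 2) n (S 2) (S' 2) hp (fun q => (hS q).2)
    (fun q => (hS' q).2) (fun ω h => ⟨(hω ω h).2.2.2.1, (hω ω h).2.2.2.2.1⟩)
  rw [log_mul_self'] at s1 s2
  linarith

theorem tJW0 (h1 : S_STC) (h2 : S_GC) : S_JW0 := by
  intro Ω γ _ p Q a b n N S S' hp hnN hS hS' hω
  have hsum : ∀ ω, p ω ≠ 0 → a 0 ω = - a 1 ω - a 2 ω ∧ b 0 ω = - b 1 ω - b 2 ω := by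
    intro ω h
    obtain ⟨-, e1, e2⟩ := hω ω h
    rw [Fin.sum_univ_three] at e1 e2
    constructor <;> linarith
  have hra : ∀ ω, p ω ≠ 0 → b 0 ω / a 0 ω * a 0 ω = b 0 ω := fun ω h =>
    div_mul_cancel₀ _ ((hω ω h).1 0).1
  have hβ : ∀ ω, p ω ≠ 0 →
      -(b 1 ω - b 0 ω / a 0 ω * a 1 ω) = b 2 ω - b 0 ω / a 0 ω * a 2 ω := by
    intro ω h
    obtain ⟨e1, e2⟩ := hsum ω h
    have e3 := hra ω h
    have e4 : a 2 ω = - a 0 ω - a 1 ω := by linarith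
    have e5 : b 2 ω = - b 0 ω - b 1 ω := by linarith
    rw [e4, e5]
    linear_combination -e3
  -- the first point
  have s1 := h1 p Q (a 1) (b 1) (fun ω => b 0 ω / a 0 ω)
    (fun ω => b 1 ω - b 0 ω / a 0 ω * a 1 ω) n n (S 1) (S' 1)
    (fun q => lines (S 0 q) (S' 0 q) (S 1 q) (S' 1 q)) hp (fun q => (hS q).2.1)
    (fun q => (hS' q).2.1)
    (fun q => card_lines (hS q).1 (hS' q).1 (hS q).2.1 (hS' q).2.1)
    (fun ω h => by
      have e := (hω ω h).1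
      exact ⟨(e 1).2.2.1, (e 1).2.2.2, div_ne_zero (e 0).2.1 (e 0).1, by ring,
        mem_lines (e 0).2.2.1 (e 0).2.2.2 (e 1).2.2.1 (e 1).2.2.2⟩)
  -- the second point
  have s2 := h1 p Q (a 2) (b 2) (fun ω => b 0 ω / a 0 ω)
    (fun ω => -(b 1 ω - b 0 ω / a 0 ω * a 1 ω)) N N (S 2) (S' 2)
    (fun q => lines (S 0 q) (S' 0 q) (S 2 q) (S' 2 q)) hp (fun q => (hS q).2.2)
    (fun q => (hS' q).2.2)
    (fun q => card_lines ((hS q).1.trans hnN) ((hS' q).1.trans hnN) (hS q).2.2 (hS' q).2.2)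
    (fun ω h => by
      have e := (hω ω h).1
      refine ⟨(e 2).2.2.1, (e 2).2.2.2, div_ne_zero (e 0).2.1 (e 0).1, ?_, ?_⟩
      · rw [hβ ω h]; ring
      · rw [hβ ω h]
        exact mem_lines (e 0).2.2.1 (e 0).2.2.2 (e 2).2.2.1 (e 2).2.2.2)
  have s2a : CH p Q (fun ω => (b 0 ω / a 0 ω, -(b 1 ω - b 0 ω / a 0 ω * a 1 ω))) =
      CH p Q (fun ω => (b 0 ω / a 0 ω, b 1 ω - b 0 ω / a 0 ω * a 1 ω)) :=
    CH_eq hp (Det.mk' (fun t => (t.2.1, -t.2.2)) fun ω _ => by simp)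
      (Det.mk' (fun t => (t.2.1, -t.2.2)) fun ω _ => by simp)
  have s2b : CH p Q (fun ω => ((b 0 ω / a 0 ω, -(b 1 ω - b 0 ω / a 0 ω * a 1 ω)),
      (a 2 ω, b 2 ω))) =
      CH p Q (fun ω => ((b 0 ω / a 0 ω, b 1 ω - b 0 ω / a 0 ω * a 1 ω), (a 2 ω, b 2 ω))) :=
    CH_eq hp (Det.mk' (fun t => ((t.2.1.1, -t.2.1.2), t.2.2)) fun ω _ => by simp)
      (Det.mk' (fun t => ((t.2.1.1, -t.2.1.2), t.2.2)) fun ω _ => by simp)
  rw [s2a, s2b] at s2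
  -- submodularity
  have s3 := CH_submod hp (Q := Q)
    (f := fun ω => ((b 0 ω / a 0 ω, b 1 ω - b 0 ω / a 0 ω * a 1 ω), (a 1 ω, b 1 ω)))
    (g := fun ω => ((b 0 ω / a 0 ω, b 1 ω - b 0 ω / a 0 ω * a 1 ω), (a 2 ω, b 2 ω)))
    (h := fun ω => (b 0 ω / a 0 ω, b 1 ω - b 0 ω / a 0 ω * a 1 ω))
    (k := fun ω => (zz a ω, zz b ω))
    (Det.mk' (fun t => t.2.1) fun ω _ => rfl) (Det.mk' (fun t => t.2.1) fun ω _ => rfl)
    (Det.mk' (fun t => ((![-t.2.1.2.1 - t.2.2.2.1, t.2.1.2.1, t.2.2.2.1] : Fin 3 → ℝ),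
      (![-t.2.1.2.2 - t.2.2.2.2, t.2.1.2.2, t.2.2.2.2] : Fin 3 → ℝ))) fun ω h => by
      obtain ⟨e1, e2⟩ := hsum ω h
      refine Prod.ext ?_ ?_
      · funext i
        fin_cases i
        · exact e1
        · rfl
        · rfl
      · funext i
        fin_cases i
        · exact e2
        · rfl
        · rfl)
  -- trivial bound
  have s4 := CH_subadd hp (Q := Q) (f := fun ω => b 0 ω / a 0 ω) (g := fun ω => (a 1 ω, b 1 ω))
    (k := fun ω => ((b 0 ω / a 0 ω, b 1 ω - b 0 ω / a 0 ω * a 1 ω), (a 1 ω, b 1 ω)))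
    (Det.mk' (fun t => ((t.2.1, t.2.2.2 - t.2.1 * t.2.2.1), t.2.2)) fun ω _ => rfl)
  have s6 := CH_pair_le h2 Q (a 1) (b 1) n (S 1) (S' 1) hp (fun q => (hS q).2.1)
    (fun q => (hS' q).2.1)
    (fun ω h => ⟨((hω ω h).1 1).2.2.1, ((hω ω h).1 1).2.2.2⟩)
  have s8 := Cst_mono hnN
  rw [log_mul_self'] at s1 s2
  linarith

end Pool.Agent.Y569.SP.J5
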