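import Pool.Agent.Y569.SP.Stm

/-!
# Sum-product with exponent 680/507: the relation with a merged form
-/

set_option autoImplicit false
set_option linter.unusedSectionVars false

open Finset
open scoped Classical Pointwise

namespace Pool.Agent.Y569.SP.L5

open Pool.Agent.W904.AK Pool.Agent.W798.SP Pool.Agent.TH408.SP Pool.Agent.W290.SPX

variable {Ω : Type} [Fintype Ω] {p : Ω → ℝ} {A : Finset ℝ} {l : Fin 4 → Ω → ℝ}
  {u : Fin 3 → Ω → ℝ} {n : ℕ}

/-- The two cases of the relation. -/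
lemma cases (l : Fin 4 → Ω → ℝ) (u : Fin 3 → Ω → ℝ) (ω : Ω) :
    (l 2 ω ≠ l 1 ω ∧ Lx l ω = (false, (l 1 ω, (l 2 ω, l 3 ω))) ∧
      fx l u ω = (l 0 ω - l 1 ω) * u 0 ω ∧ gx l u ω = u3 u ω) ∨
    (l 2 ω = l 1 ω ∧ Lx l ω = (true, (l 3 ω, (l 1 ω, l 0 ω))) ∧
      fx l u ω = (l 0 ω - l 3 ω) * u 0 ω ∧ gx l u ω = u 1 ω) := by
  by_cases h : l 2 ω ≠ l 1 ω
  · refine Or.inl ⟨h, if_pos h, ?_, if_pos h⟩
    unfold fx Lx
    rw [if_pos h]
  · refine Or.inr ⟨not_not.1 h, if_neg h, ?_, if_neg h⟩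
    unfold fx Lx
    rw [if_neg h]

theorem tri2 (hp : IsLaw p)
    (hmem : ∀ ω, p ω ≠ 0 → ∀ i : Fin 3, u i ω ∈ fib A (l i.castSucc ω))
    (hmem3 : ∀ ω, p ω ≠ 0 → u3 u ω ∈ fib A (l 3 ω))
    (hu : ∀ ω, p ω ≠ 0 → ∀ i, u i ω ≠ 0) (hu3 : ∀ ω, p ω ≠ 0 → u3 u ω ≠ 0)
    (hne : ∀ ω, p ω ≠ 0 → ∀ i : Fin 3, l i.castSucc ω ≠ l 3 ω)
    (hne01 : ∀ ω, p ω ≠ 0 → l 0 ω ≠ l 1 ω)
    (hrel : ∀ ω, p ω ≠ 0 →
      (l 0 ω - l 3 ω) * u 0 ω + (l 1 ω - l 3 ω) * u 1 ω = (l 2 ω - l 3 ω) * u 2 ω)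
    (hcard : ∀ ω, p ω ≠ 0 → ∀ i, (fib A (l i ω)).card ≤ n) :
    Tri2 p (Lx l) ![fx l u, u 2, gx l u] n := by
  refine ⟨hp, ![fun _ => -1, fun g => g.2.2.1 - g.2.1,
    fun g => if g.1 = true then -(g.2.2.1 - g.2.1) else g.2.2.2 - g.2.1],
    ![fun _ => ∅, fun g => if (fib A g.2.2.1).card ≤ n then fib A g.2.2.1 else ∅,
      fun g => if (fib A (if g.1 = true then g.2.2.1 else g.2.2.2)).card ≤ n then
        fib A (if g.1 = true then g.2.2.1 else g.2.2.2) else ∅], ?_, ?_⟩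
  · intro g
    refine ⟨?_, ?_⟩
    · show (if (fib A g.2.2.1).card ≤ n then fib A g.2.2.1 else ∅).card ≤ n
      split_ifs with hc
      · exact hc
      · simp
    · show (if (fib A (if g.1 = true then g.2.2.1 else g.2.2.2)).card ≤ n then
        fib A (if g.1 = true then g.2.2.1 else g.2.2.2) else ∅).card ≤ n
      by_cases hc : (fib A (if g.1 = true then g.2.2.1 else g.2.2.2)).card ≤ n
      · rw [if_pos hc]
        exact hc
      · rw [if_neg hc]
        simp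
  · intro ω hω
    have m0 := hmem ω hω 0
    have m1 : u 1 ω ∈ fib A (l 1 ω) := hmem ω hω 1
    have m2 : u 2 ω ∈ fib A (l 2 ω) := hmem ω hω 2
    have m3 := hmem3 ω hω
    have n0 : l 0 ω ≠ l 3 ω := hne ω hω 0
    have n1 : l 1 ω ≠ l 3 ω := hne ω hω 1
    have n2 : l 2 ω ≠ l 3 ω := hne ω hω 2
    have r := hrel ω hω
    rcases cases l u ω with ⟨h1, h2, h3, h4⟩ | ⟨h1, h2, h3, h4⟩
    · refine ⟨?_, ?_, ?_, ?_⟩
      · intro i
        fin_cases i
        · refine ⟨by show (-1 : ℝ) ≠ 0; norm_num, ?_⟩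
          show fx l u ω ≠ 0
          rw [h3]
          exact mul_ne_zero (sub_ne_zero.2 (hne01 ω hω)) (hu ω hω 0)
        · refine ⟨?_, hu ω hω 2⟩
          show (Lx l ω).2.2.1 - (Lx l ω).2.1 ≠ 0
          rw [h2]
          exact sub_ne_zero.2 h1
        · refine ⟨?_, ?_⟩
          · show (if (Lx l ω).1 = true then -((Lx l ω).2.2.1 - (Lx l ω).2.1) else
              (Lx l ω).2.2.2 - (Lx l ω).2.1) ≠ 0
            rw [h2, if_neg (by simp)]
            exact sub_ne_zero.2 n1.symm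
          · show gx l u ω ≠ 0
            rw [h4]
            exact hu3 ω hω
      · show u 2 ω ∈ if (fib A (Lx l ω).2.2.1).card ≤ n then fib A (Lx l ω).2.2.1 else ∅
        rw [h2, if_pos (hcard ω hω 2)]
        exact m2
      · show gx l u ω ∈ if (fib A (if (Lx l ω).1 = true then (Lx l ω).2.2.1 else
            (Lx l ω).2.2.2)).card ≤ n then
          fib A (if (Lx l ω).1 = true then (Lx l ω).2.2.1 else (Lx l ω).2.2.2) else ∅
        have e1 : (if (Lx l ω).1 = true then (Lx l ω).2.2.1 else (Lx l ω).2.2.2) = l 3 ω := by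
          rw [h2]
          simp
        rw [e1, if_pos (hcard ω hω 3), h4]
        exact m3
      · rw [Fin.sum_univ_three]
        show (-1) * fx l u ω + ((Lx l ω).2.2.1 - (Lx l ω).2.1) * u 2 ω +
          (if (Lx l ω).1 = true then -((Lx l ω).2.2.1 - (Lx l ω).2.1) else
              (Lx l ω).2.2.2 - (Lx l ω).2.1) * gx l u ω = 0
        rw [h3, h4, h2, if_neg (by simp)]
        show (-1) * ((l 0 ω - l 1 ω) * u 0 ω) + (l 2 ω - l 1 ω) * u 2 ω +
          (l 3 ω - l 1 ω) * (u 0 ω + u 1 ω - u 2 ω) = 0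
        linear_combination -r
    · refine ⟨?_, ?_, ?_, ?_⟩
      · intro i
        fin_cases i
        · refine ⟨by show (-1 : ℝ) ≠ 0; norm_num, ?_⟩
          show fx l u ω ≠ 0
          rw [h3]
          exact mul_ne_zero (sub_ne_zero.2 n0) (hu ω hω 0)
        · refine ⟨?_, hu ω hω 2⟩
          show (Lx l ω).2.2.1 - (Lx l ω).2.1 ≠ 0
          rw [h2]
          exact sub_ne_zero.2 n1
        · refine ⟨?_, ?_⟩
          · show (if (Lx l ω).1 = true then -((Lx l ω).2.2.1 - (Lx l ω).2.1) else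
              (Lx l ω).2.2.2 - (Lx l ω).2.1) ≠ 0
            rw [h2, if_pos rfl]
            exact neg_ne_zero.2 (sub_ne_zero.2 n1)
          · show gx l u ω ≠ 0
            rw [h4]
            exact hu ω hω 1
      · show u 2 ω ∈ if (fib A (Lx l ω).2.2.1).card ≤ n then fib A (Lx l ω).2.2.1 else ∅
        rw [h2, if_pos (hcard ω hω 1), ← h1]
        exact m2
      · show gx l u ω ∈ if (fib A (if (Lx l ω).1 = true then (Lx l ω).2.2.1 else
            (Lx l ω).2.2.2)).card ≤ n then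
          fib A (if (Lx l ω).1 = true then (Lx l ω).2.2.1 else (Lx l ω).2.2.2) else ∅
        have e1 : (if (Lx l ω).1 = true then (Lx l ω).2.2.1 else (Lx l ω).2.2.2) = l 1 ω := by
          rw [h2]
          simp
        rw [e1, if_pos (hcard ω hω 1), h4]
        exact m1
      · rw [Fin.sum_univ_three]
        show (-1) * fx l u ω + ((Lx l ω).2.2.1 - (Lx l ω).2.1) * u 2 ω +
          (if (Lx l ω).1 = true then -((Lx l ω).2.2.1 - (Lx l ω).2.1) else
              (Lx l ω).2.2.2 - (Lx l ω).2.1) * gx l u ω = 0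
        rw [h3, h4, h2, if_pos rfl]
        show (-1) * ((l 0 ω - l 3 ω) * u 0 ω) + (l 1 ω - l 3 ω) * u 2 ω +
          (-(l 1 ω - l 3 ω)) * u 1 ω = 0
        rw [h1] at r
        linear_combination -r

/-- The entropy of the relation. -/
theorem ent (hp : IsLaw p) {S : Finset ℝ} {c : ℝ → ℕ} {T M : ℕ} (hS : 0 < S.card) (hT : 1 ≤ T)
    (hM : 2 ≤ M) (hcls : ∀ a, (S.filter (fun b => c b = c a)).card ≤ M)
    (hl : ∀ ω, p ω ≠ 0 → ∀ i, l i ω ∈ S ∧ c (l i ω) = c (l 0 ω))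
    (hne : ∀ ω, p ω ≠ 0 → l 0 ω ≠ l 3 ω)
    (hdet : Det p (fun ω => ((l 0 ω, l 1 ω), (u 0 ω, u 1 ω))) (id : Ω → Ω))
    (hdet2 : Det p (fun ω => ((l 2 ω, l 3 ω), (u 2 ω, u3 u ω))) (id : Ω → Ω))
    (hid : Real.log ((M : ℝ) * S.card * T ^ 2 / 16) ≤ H p (id : Ω → Ω)) :
    Real.log ((T : ℝ) ^ 2 / (32 * (M : ℝ))) ≤
      CH p (Lx l) (zz (![fx l u, u 2, gx l u] : Fin 3 → Ω → ℝ)) := by
  have hSr : (0 : ℝ) < S.card := by exact_mod_cast hS
  have hTr : (0 : ℝ) < T := by exact_mod_cast (show 0 < T by omega)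
  have hMr : (0 : ℝ) < M := by exact_mod_cast (show 0 < M by omega)
  have hB2 : (S.biUnion (fun a => ({a} : Finset ℝ) ×ˢ ((S.filter (fun b => c b = c a)) ×ˢ
      (S.filter (fun b => c b = c a))))).card ≤ S.card * M ^ 2 := by
    refine Finset.card_biUnion_le.trans ?_
    rw [← smul_eq_mul, ← Finset.sum_const]
    apply Finset.sum_le_sum
    intro a _
    rw [Finset.card_product, Finset.card_product, Finset.card_singleton, one_mul, sq]
    exact Nat.mul_le_mul (hcls a) (hcls a)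
  have hB3 : ((Finset.univ : Finset Bool) ×ˢ (S.biUnion (fun a => ({a} : Finset ℝ) ×ˢ
      ((S.filter (fun b => c b = c a)) ×ˢ (S.filter (fun b => c b = c a)))))).card ≤
      2 * (S.card * M ^ 2) := by
    rw [Finset.card_product, Finset.card_univ, Fintype.card_bool]
    exact Nat.mul_le_mul_left _ hB2
  have hmem : ∀ ω, p ω ≠ 0 → Lx l ω ∈ (Finset.univ : Finset Bool) ×ˢ
      (S.biUnion (fun a => ({a} : Finset ℝ) ×ˢ
      ((S.filter (fun b => c b = c a)) ×ˢ (S.filter (fun b => c b = c a))))) := by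
    intro ω hω
    have k := hl ω hω
    rcases cases l u ω with ⟨h1, h2, h3, h4⟩ | ⟨h1, h2, h3, h4⟩
    · rw [h2]
      refine Finset.mem_product.2 ⟨Finset.mem_univ _, Finset.mem_biUnion.2 ⟨l 1 ω, (k 1).1,
        Finset.mem_product.2 ⟨Finset.mem_singleton_self _, Finset.mem_product.2 ⟨?_, ?_⟩⟩⟩⟩
      · exact Finset.mem_filter.2 ⟨(k 2).1, (k 2).2.trans (k 1).2.symm⟩
      · exact Finset.mem_filter.2 ⟨(k 3).1, (k 3).2.trans (k 1).2.symm⟩
    · rw [h2]
      refine Finset.mem_product.2 ⟨Finset.mem_univ _, Finset.mem_biUnion.2 ⟨l 3 ω, (k 3).1,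
        Finset.mem_product.2 ⟨Finset.mem_singleton_self _, Finset.mem_product.2 ⟨?_, ?_⟩⟩⟩⟩
      · exact Finset.mem_filter.2 ⟨(k 1).1, (k 1).2.trans (k 3).2.symm⟩
      · exact Finset.mem_filter.2 ⟨(k 0).1, (k 3).2.symm⟩
  have h1 : H p (Lx l) ≤ Real.log (2 * ((S.card : ℝ) * (M : ℝ) ^ 2)) := by
    refine (H_le hp (Lx l) _ hmem).trans ?_
    obtain ⟨ω, hω⟩ : ∃ ω, p ω ≠ 0 := by
      by_contra hcon
      push Not at hcon
      have := hp.total
      rw [Finset.sum_eq_zero fun ω _ => hcon ω] at this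
      exact zero_ne_one this
    apply Real.log_le_log
    · exact_mod_cast Finset.card_pos.2 ⟨_, hmem ω hω⟩
    · exact_mod_cast hB3
  have h2 : H p (id : Ω → Ω) ≤ H p (fun ω => (Lx l ω,
      zz (![fx l u, u 2, gx l u] : Fin 3 → Ω → ℝ) ω)) := by
    apply H_mono hp
    intro x y hx hy hxy
    have e1 : Lx l x = Lx l y := congrArg Prod.fst hxy
    have e2 := congrArg Prod.snd hxy
    have e3 : fx l u x = fx l u y := congrFun e2 0
    have e4 : u 2 x = u 2 y := congrFun e2 1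
    have e5 : gx l u x = gx l u y := congrFun e2 2
    rcases cases l u x with ⟨a1, a2, a3, a4⟩ | ⟨a1, a2, a3, a4⟩
    · rcases cases l u y with ⟨b1, b2, b3, b4⟩ | ⟨b1, b2, b3, b4⟩
      · rw [a2, b2] at e1
        have e6 := congrArg Prod.snd e1
        have e7 : l 2 x = l 2 y := congrArg (fun t => t.2.1) e6
        have e8 : l 3 x = l 3 y := congrArg (fun t => t.2.2) e6
        rw [a4, b4] at e5
        exact hdet2 x y hx hy (by
          show ((l 2 x, l 3 x), (u 2 x, u3 u x)) = ((l 2 y, l 3 y), (u 2 y, u3 u y))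
          rw [e7, e8, e4, e5])
      · rw [a2, b2] at e1
        exact absurd (congrArg Prod.fst e1) (by simp)
    · rcases cases l u y with ⟨b1, b2, b3, b4⟩ | ⟨b1, b2, b3, b4⟩
      · rw [a2, b2] at e1
        exact absurd (congrArg Prod.fst e1) (by simp)
      · rw [a2, b2] at e1
        have e6 := congrArg Prod.snd e1
        have e7 : l 3 x = l 3 y := congrArg (fun t => t.1) e6
        have e8 : l 1 x = l 1 y := congrArg (fun t => t.2.1) e6
        have e9 : l 0 x = l 0 y := congrArg (fun t => t.2.2) e6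
        rw [a4, b4] at e5
        rw [a3, b3, e9, e7] at e3
        have e10 : u 0 x = u 0 y := mul_left_cancel₀ (sub_ne_zero.2 (hne y hy)) e3
        exact hdet x y hx hy (by
          show ((l 0 x, l 1 x), (u 0 x, u 1 x)) = ((l 0 y, l 1 y), (u 0 y, u 1 y))
          rw [e9, e8, e10, e5])
  have h5 : Real.log ((T : ℝ) ^ 2 / (32 * (M : ℝ))) =
      Real.log ((M : ℝ) * S.card * T ^ 2 / 16) -
        Real.log (2 * ((S.card : ℝ) * (M : ℝ) ^ 2)) := by
    rw [← Real.log_div (by positivity) (by positivity)]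
    congr 1
    field_simp
    norm_num
  rw [h5]
  unfold CH
  linarith

end Pool.Agent.Y569.SP.L5
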