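import Pool.Agent.Y666.SP.Stm2

/-!
# Project SP, part 2: compactness (job SP2-RADO)
-/

set_option autoImplicit false

namespace Pool.Agent.Y569.SP

open Pool.Agent.Y666.SP Filter

theorem rado : S_RADO := by
  classical
  intro ι β O hO R h
  choose σ hσ1 hσ2 using h
  let U : Ultrafilter (Finset ι) := Ultrafilter.of atTop
  have hU : (U : Filter (Finset ι)) ≤ atTop := Ultrafilter.of_le atTop
  have hmem : ∀ i : ι, ∀ᶠ s in (U : Filter (Finset ι)), i ∈ s := by
    intro i
    have h1 : ∀ᶠ s in (atTop : Filter (Finset ι)), {i} ≤ s := eventually_ge_atTop {i}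
    filter_upwards [hU h1] with s hs
    exact hs (Finset.mem_singleton_self i)
  have hex : ∀ i : ι, ∃ b ∈ O i, {s | σ s i = b} ∈ U := by
    intro i
    rw [← Ultrafilter.finite_biUnion_mem_iff (hO i)]
    have : ∀ᶠ s in (U : Filter (Finset ι)), s ∈ ⋃ b ∈ O i, {s | σ s i = b} := by
      filter_upwards [hmem i] with s hs
      exact Set.mem_biUnion (hσ1 s i hs) rfl
    exact this
  choose b hb1 hb2 using hex
  refine ⟨b, hb1, fun i j => ?_⟩
  have h1 : ∀ᶠ s in (U : Filter (Finset ι)), R i j (b i) (b j) := by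
    filter_upwards [hmem i, hmem j, hb2 i, hb2 j] with s hi hj hbi hbj
    have hbi' : σ s i = b i := hbi
    have hbj' : σ s j = b j := hbj
    rw [← hbi', ← hbj']
    exact hσ2 s i hi j hj
  exact h1.exists.choose_spec

end Pool.Agent.Y569.SP
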