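import Pool.Agent.TH408.SP.Chain4

/-!
# Sum-product over the reals with exponent 680/507: statements of the new parts

Compared with the exponent 122/91 there are two changes.
* The incidence inequality for two copies is used with the weights 10/3 and 8/3 for the two grids
  of different sizes.
* For the ratio `u 1 / u 0` the slope of the form of interest is merged: the relation
  `(l 0 - l 1) u 0 = (l 2 - l 1) u 2 + (l 3 - l 1) u 3` is used with the single unknown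
  `(l 0 - l 1) u 0`, whose range does not matter in the incidence inequality, and the two killed
  slopes are independent copies.
-/

set_option autoImplicit false
set_option linter.unusedSectionVars false

open Finset
open scoped Classical Pointwise

namespace Pool.Agent.Y569.SP

open Pool.Agent.W904.AK Pool.Agent.W798.SP Pool.Agent.TH408.SP

/-- Three real functions which satisfy one linear relation with nonzero coefficients depending on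
`Lam`, the last two of which lie in sets depending on `Lam` with at most `n` elements. -/
structure Tri2 {Ω Γ : Type} [Fintype Ω] (p : Ω → ℝ) (Lam : Ω → Γ) (u : Fin 3 → Ω → ℝ) (n : ℕ) :
    Prop where
  law : IsLaw p
  rel : ∃ (c : Fin 3 → Γ → ℝ) (S : Fin 3 → Γ → Finset ℝ),
    (∀ g, (S 1 g).card ≤ n ∧ (S 2 g).card ≤ n) ∧
    ∀ ω, p ω ≠ 0 → (∀ i, c i (Lam ω) ≠ 0 ∧ u i ω ≠ 0) ∧ u 1 ω ∈ S 1 (Lam ω) ∧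
      u 2 ω ∈ S 2 (Lam ω) ∧ ∑ i, c i (Lam ω) * u i ω = 0

/-- J05: the incidence inequality for two copies, without a set for the first form. -/
def S_J05 : Prop := ∀ {Ω γ : Type} [Fintype Ω] (p : Ω → ℝ) (Q : Ω → γ) (a b : Fin 3 → Ω → ℝ)
  (n : ℕ) (S S' : Fin 3 → γ → Finset ℝ), IsLaw p →
  (∀ g, (S 1 g).card ≤ n ∧ (S 2 g).card ≤ n) →
  (∀ g, (S' 1 g).card ≤ n ∧ (S' 2 g).card ≤ n) →
  (∀ ω, p ω ≠ 0 → (∀ i, a i ω ≠ 0 ∧ b i ω ≠ 0) ∧ a 1 ω ∈ S 1 (Q ω) ∧ b 1 ω ∈ S' 1 (Q ω) ∧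
    a 2 ω ∈ S 2 (Q ω) ∧ b 2 ω ∈ S' 2 (Q ω) ∧ ∑ i, a i ω = 0 ∧ ∑ i, b i ω = 0) →
  2 * CH p Q (fun ω => (zz a ω, zz b ω)) ≤
    CH p Q (fun ω => b 0 ω / a 0 ω) + 6 * Real.log n + Cst n

/-- J5: the same for the forms of two triple laws. -/
def S_J5 : Prop := ∀ {Ω₁ Γ₁ K₁ Ω₂ Γ₂ K₂ Ω γ : Type} [Fintype Ω₁] [Fintype Ω₂] [Fintype Ω]
  (p₁ : Ω₁ → ℝ) (Lam₁ : Ω₁ → Γ₁) (a : Fin 3 → Ω₁ → ℝ) (κ₁ : Γ₁ → K₁)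
  (p₂ : Ω₂ → ℝ) (Lam₂ : Ω₂ → Γ₂) (b : Fin 3 → Ω₂ → ℝ) (κ₂ : Γ₂ → K₂) (n : ℕ)
  (p : Ω → ℝ) (kA : Ω → K₁) (kB : Ω → K₂) (f g : Ω → ℝ) (Q : Ω → γ),
  Tri2 p₁ Lam₁ a n → Tri2 p₂ Lam₂ b n → IsLaw p →
  (∀ c, im p (fun ω => (kA ω, f ω)) c = im p₁ (fun ω => (κ₁ (Lam₁ ω), a 0 ω)) c) →
  (∀ c, im p (fun ω => (kB ω, g ω)) c = im p₂ (fun ω => (κ₂ (Lam₂ ω), b 0 ω)) c) →
  Det p Q kA → Det p Q kB →
  2 * CH p Q (fun ω => (f ω, g ω)) ≤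
    CH p Q (fun ω => g ω / f ω) + 6 * Real.log n + Cst n -
      2 * (CH p₁ Lam₁ (zz a) - CH p₁ (fun ω => κ₁ (Lam₁ ω)) (a 0)) -
      2 * (CH p₂ Lam₂ (zz b) - CH p₂ (fun ω => κ₂ (Lam₂ ω)) (b 0))

/-- JW0: the incidence inequality for two copies, with weights. -/
def S_JW0 : Prop := ∀ {Ω γ : Type} [Fintype Ω] (p : Ω → ℝ) (Q : Ω → γ) (a b : Fin 3 → Ω → ℝ)
  (n N : ℕ) (S S' : Fin 3 → γ → Finset ℝ), IsLaw p → n ≤ N →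
  (∀ g, (S 0 g).card ≤ n ∧ (S 1 g).card ≤ n ∧ (S 2 g).card ≤ N) →
  (∀ g, (S' 0 g).card ≤ n ∧ (S' 1 g).card ≤ n ∧ (S' 2 g).card ≤ N) →
  (∀ ω, p ω ≠ 0 → (∀ i, a i ω ≠ 0 ∧ b i ω ≠ 0 ∧ a i ω ∈ S i (Q ω) ∧ b i ω ∈ S' i (Q ω)) ∧
    ∑ i, a i ω = 0 ∧ ∑ i, b i ω = 0) →
  6 * CH p Q (fun ω => (zz a ω, zz b ω)) ≤
    3 * CH p Q (fun ω => b 0 ω / a 0 ω) + 10 * Real.log n + 8 * Real.log N + 3 * Cst N

/-- JW: the same for a pair of forms of two triple laws. -/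
def S_JW : Prop := ∀ {Ω₁ Γ₁ K₁ Ω₂ Γ₂ K₂ Ω γ : Type} [Fintype Ω₁] [Fintype Ω₂] [Fintype Ω]
  (p₁ : Ω₁ → ℝ) (Lam₁ : Ω₁ → Γ₁) (a : Fin 3 → Ω₁ → ℝ) (κ₁ : Γ₁ → K₁)
  (p₂ : Ω₂ → ℝ) (Lam₂ : Ω₂ → Γ₂) (b : Fin 3 → Ω₂ → ℝ) (κ₂ : Γ₂ → K₂) (n N : ℕ)
  (p : Ω → ℝ) (kA : Ω → K₁) (kB : Ω → K₂) (f g : Ω → ℝ) (Q : Ω → γ),
  Tri3 p₁ Lam₁ a n N → Tri3 p₂ Lam₂ b n N → n ≤ N → IsLaw p →
  (∀ c, im p (fun ω => (kA ω, f ω)) c = im p₁ (fun ω => (κ₁ (Lam₁ ω), a 0 ω)) c) →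
  (∀ c, im p (fun ω => (kB ω, g ω)) c = im p₂ (fun ω => (κ₂ (Lam₂ ω), b 0 ω)) c) →
  Det p Q kA → Det p Q kB →
  6 * CH p Q (fun ω => (f ω, g ω)) ≤
    3 * CH p Q (fun ω => g ω / f ω) + 10 * Real.log n + 8 * Real.log N + 3 * Cst N -
      6 * (CH p₁ Lam₁ (zz a) - CH p₁ (fun ω => κ₁ (Lam₁ ω)) (a 0)) -
      6 * (CH p₂ Lam₂ (zz b) - CH p₂ (fun ω => κ₂ (Lam₂ ω)) (b 0))

/-- PR5: the entropy of a product of two conditionally independent forms. -/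
def S_PR5 : Prop := ∀ {Ω Ω₁ Γ₁ Ω₂ Γ₂ K₁ K₂ : Type} [Fintype Ω] [Fintype Ω₁] [Fintype Ω₂]
  (p : Ω → ℝ) (kA : Ω → K₁) (kB : Ω → K₂) (a b : Ω → ℝ)
  (p₁ : Ω₁ → ℝ) (Lam₁ : Ω₁ → Γ₁) (α : Fin 3 → Ω₁ → ℝ) (κ₁ : Γ₁ → K₁)
  (p₂ : Ω₂ → ℝ) (Lam₂ : Ω₂ → Γ₂) (β : Fin 3 → Ω₂ → ℝ) (κ₂ : Γ₂ → K₂) (n N : ℕ),
  IsLaw p → n ≤ N → Tri3 p₁ Lam₁ α n N → Tri3 p₂ Lam₂ β n N →
  (∀ c, im p (fun ω => (kA ω, a ω)) c = im p₁ (fun ω => (κ₁ (Lam₁ ω), α 0 ω)) c) →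
  (∀ c, im p (fun ω => (kB ω, b ω)) c = im p₂ (fun ω => (κ₂ (Lam₂ ω), β 0 ω)) c) →
  (∀ ω, p ω ≠ 0 → a ω ≠ 0 ∧ b ω ≠ 0) →
  CH p (fun ω => (kA ω, kB ω)) (fun ω => (a ω, b ω)) = CH p kA a + CH p kB b →
  2 * CH p₁ Lam₁ (zz α) + 2 * CH p₂ Lam₂ (zz β) - 10 / 3 * Real.log n - 8 / 3 * Real.log N -
    Cst N ≤ CH p (fun ω => (kA ω, kB ω)) (fun ω => a ω * b ω)

/-- EX5: the extensions exist. -/
def S_EX5 : Prop := ∀ {Ω Γ₁ Γ₂ : Type} [Fintype Ω] (A : Finset ℝ) (p : Ω → ℝ)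
  (l : Fin 4 → Ω → ℝ) (u : Fin 3 → Ω → ℝ) (n N : ℕ) (i : Fin 3)
  (Lam₁ : Ω → Γ₁) (α : Fin 3 → Ω → ℝ) (κ₁ : Γ₁ → ℝ)
  (Lam₂ : Ω → Γ₂) (β : Fin 3 → Ω → ℝ) (κ₂ : Γ₂ → ℝ),
  A.Nonempty → (∀ a ∈ A, 0 < a) → Base A p l u n → n ≤ N →
  Tri3 p Lam₁ α n N → (∀ ω, κ₁ (Lam₁ ω) = l 0 ω ∧ α 0 ω = u 0 ω) →
  Tri3 p Lam₂ β n N → (∀ ω, κ₂ (Lam₂ ω) = l i.castSucc ω ∧ β 0 ω = u i ω) →
  Ext4 A p l u i
    (3 * H p (fun ω => (l 0 ω, u 0 ω)) + 3 * H p (fun ω => (l i.castSucc ω, u i ω)) -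
      8 * Real.log A.card - Real.log (en A))
    (2 * CH p Lam₁ (zz α) + 2 * CH p Lam₂ (zz β) - 10 / 3 * Real.log n - 8 / 3 * Real.log N -
      Cst N)

/-- The slopes of the relation for the form `u 0` with merged slope: the first one is killed. -/
noncomputable def Lx {Ω : Type} (l : Fin 4 → Ω → ℝ) (ω : Ω) : Bool × (ℝ × (ℝ × ℝ)) :=
  if l 2 ω ≠ l 1 ω then (false, (l 1 ω, (l 2 ω, l 3 ω))) else (true, (l 3 ω, (l 1 ω, l 0 ω)))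

/-- The merged form. -/
noncomputable def fx {Ω : Type} (l : Fin 4 → Ω → ℝ) (u : Fin 3 → Ω → ℝ) (ω : Ω) : ℝ :=
  (l 0 ω - (Lx l ω).2.1) * u 0 ω

/-- The last form of the relation. -/
noncomputable def gx {Ω : Type} (l : Fin 4 → Ω → ℝ) (u : Fin 3 → Ω → ℝ) (ω : Ω) : ℝ :=
  if l 2 ω ≠ l 1 ω then u3 u ω else u 1 ω

/-- The slopes with the first two exchanged. -/
def lsw {Ω : Type} (l : Fin 4 → Ω → ℝ) : Fin 4 → Ω → ℝ := ![l 1, l 0, l 2, l 3]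

/-- The forms with the first two exchanged. -/
def usw {Ω : Type} (u : Fin 3 → Ω → ℝ) : Fin 3 → Ω → ℝ := ![u 1, u 0, u 2]

/-- CL5: the basic law. -/
def S_CL5 : Prop := ∀ (A S : Finset ℝ) (T M : ℕ), (∀ x ∈ A, 0 < x) → 1 ≤ T → 2 ≤ M → M ≤ S.card →
  (∀ l ∈ S, 0 < l ∧ T ≤ (fib A l).card ∧ (fib A l).card < 2 * T) →
  16 * (A + A).card ^ 2 ≤ M * S.card * T ^ 2 →
  ∃ (Ω : Type) (_ : Fintype Ω) (p : Ω → ℝ) (l : Fin 4 → Ω → ℝ) (u : Fin 3 → Ω → ℝ) (c : ℝ → ℕ),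
    Base A p l u (2 * T) ∧
    (∀ i : Fin 3, Real.log ((S.card : ℝ) * T / 32) ≤ H p (fun ω => (l i.castSucc ω, u i ω))) ∧
    Real.log ((T : ℝ) ^ 2 / (16 * (M : ℝ))) ≤
      CH p (Lm l) (zz (![u 0, u 1, v2 l u] : Fin 3 → Ω → ℝ)) ∧
    Real.log ((T : ℝ) ^ 2 / (16 * (M : ℝ))) ≤
      CH p (Lt l) (zz (![u 2, u3 u, vt l u] : Fin 3 → Ω → ℝ)) ∧
    CH p (fun ω => (l 0 ω, l 1 ω)) (l 3) ≤ Real.log M ∧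
    CH p (fun ω => (l 0 ω, l 1 ω)) (fun ω => (l 2 ω, l 3 ω)) ≤ 2 * Real.log M ∧
    Tri3 p (Lm l) ![u 0, u 1, v2 l u] (2 * T) (2 * T * M) ∧
    Tri3 p (Lm l) ![u 1, u 0, v2 l u] (2 * T) (2 * T * M) ∧
    Tri3 p (Lt l) ![u 2, u3 u, vt l u] (2 * T) (2 * T * M) ∧
    Real.log ((M : ℝ) * S.card * T ^ 2 / 16) ≤
      H p (fun ω => ((l 0 ω, u 0 ω), (l 1 ω, u 1 ω))) ∧
    Real.log ((T : ℝ) ^ 2 / (32 * (M : ℝ))) ≤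
      CH p (Lx l) (zz (![fx l u, u 2, gx l u] : Fin 3 → Ω → ℝ)) ∧
    Real.log ((T : ℝ) ^ 2 / (32 * (M : ℝ))) ≤ CH p (Lx (lsw l))
      (zz (![fx (lsw l) (usw u), u 2, gx (lsw l) (usw u)] : Fin 3 → Ω → ℝ)) ∧
    Tri2 p (Lx l) ![fx l u, u 2, gx l u] (2 * T) ∧
    Tri2 p (Lx (lsw l)) ![fx (lsw l) (usw u), u 2, gx (lsw l) (usw u)] (2 * T) ∧
    (∀ a, (S.filter (fun b => c b = c a)).card ≤ M) ∧
    (∀ ω, p ω ≠ 0 → ∀ i, l i ω ∈ S ∧ c (l i ω) = c (l 0 ω))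

/-- X5: the entropy of the ratio of the first two forms. -/
def S_X5 : Prop := ∀ {Ω : Type} [Fintype Ω] (A S : Finset ℝ) (T M : ℕ) (p : Ω → ℝ)
  (l : Fin 4 → Ω → ℝ) (u : Fin 3 → Ω → ℝ) (c : ℝ → ℕ) (h : ℝ), 1 ≤ T → 2 ≤ M → M ≤ S.card →
  (∀ l ∈ S, 0 < l ∧ T ≤ (fib A l).card ∧ (fib A l).card < 2 * T) →
  Base A p l u (2 * T) →
  (∀ i : Fin 3, Real.log ((S.card : ℝ) * T / 32) ≤ H p (fun ω => (l i.castSucc ω, u i ω))) →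
  Real.log ((M : ℝ) * S.card * T ^ 2 / 16) ≤ H p (fun ω => ((l 0 ω, u 0 ω), (l 1 ω, u 1 ω))) →
  h ≤ CH p (Lx l) (zz (![fx l u, u 2, gx l u] : Fin 3 → Ω → ℝ)) →
  h ≤ CH p (Lx (lsw l))
      (zz (![fx (lsw l) (usw u), u 2, gx (lsw l) (usw u)] : Fin 3 → Ω → ℝ)) →
  Tri2 p (Lx l) ![fx l u, u 2, gx l u] (2 * T) →
  Tri2 p (Lx (lsw l)) ![fx (lsw l) (usw u), u 2, gx (lsw l) (usw u)] (2 * T) →
  (∀ a, (S.filter (fun b => c b = c a)).card ≤ M) →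
  (∀ ω, p ω ≠ 0 → ∀ i, l i ω ∈ S ∧ c (l i ω) = c (l 0 ω)) →
  4 * h - 6 * Real.log ((2 * T : ℕ) : ℝ) - Cst (2 * T) - 2 * Real.log M - 24 * Real.log 2 ≤
    CH p (fun ω => (l 0 ω, l 1 ω)) (fun ω => u 1 ω / u 0 ω)

/-- AS5: the inequality before optimisation. -/
def S_AS5 : Prop := ∀ (A S : Finset ℝ) (T M : ℕ), A.Nonempty → (∀ x ∈ A, 0 < x) → 1 ≤ T → 2 ≤ M →
  M ≤ S.card → (∀ l ∈ S, 0 < l ∧ T ≤ (fib A l).card ∧ (fib A l).card < 2 * T) →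
  16 * (A + A).card ^ 2 ≤ M * S.card * T ^ 2 →
  36 * Real.log ((T : ℝ) ^ 2 / (32 * (M : ℝ))) + 48 * Real.log ((T : ℝ) ^ 2 / (16 * (M : ℝ))) +
    36 * Real.log ((S.card : ℝ) * T / 32) - 94 * Real.log ((2 * T : ℕ) : ℝ) -
    32 * Real.log ((2 * T * M : ℕ) : ℝ) - 33 * Real.log M - 48 * Real.log A.card -
    6 * Real.log (en A) - 21 * Cst (2 * T * M) - 216 * Real.log 2 ≤
    24 * Real.log (A * A).card + 3 * Er (A * A).card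

/-- PO5: the result for sets of positive reals. -/
def S_PO5 : Prop := ∀ δ : ℝ, 0 < δ → ∃ c : ℝ, 0 < c ∧ ∀ A : Finset ℝ, A.Nonempty →
  (∀ x ∈ A, 0 < x) → c * (A.card : ℝ) ^ (680 - δ) ≤
    ((A + A).card : ℝ) ^ 298 * ((A * A).card : ℝ) ^ 209

/-- RE5: the result for finite sets of reals. -/
def S_RE5 : Prop := ∀ δ : ℝ, 0 < δ → ∃ c : ℝ, 0 < c ∧ ∀ A : Finset ℝ, A.Nonempty →
  c * (A.card : ℝ) ^ (680 - δ) ≤ ((A + A).card : ℝ) ^ 298 * ((A * A).card : ℝ) ^ 209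

end Pool.Agent.Y569.SP
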